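import Pool.Agent.Lib.MP_3b3418_ag.PV.SpecJ

/-!
# Coinduction from the Levi subgroup of a minimal parabolic (AM)
-/

set_option autoImplicit false

namespace PV

open MP3s

variable {m : ℕ}

/-- The block triangular matrices of determinant one. -/
private def AM_P (β : Fin m → Fin m) : Subgroup (SLm m) where
  carrier := {p | (mat p).BlockTriangular β}
  mul_mem' {a b} ha hb := by
    change (mat (a * b)).BlockTriangular β
    rw [mat_mul]
    exact Matrix.BlockTriangular.mul ha hb
  one_mem' := by
    change (mat (1 : SLm m)).BlockTriangular β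
    rw [mat_one]
    exact Matrix.blockTriangular_one
  inv_mem' {a} ha := by
    change (mat a⁻¹).BlockTriangular β
    have h1 : mat a⁻¹ = (mat a)⁻¹ := by
      symm
      exact Matrix.inv_eq_left_inv (mat_inv_mul a)
    have : Invertible (mat a) := ⟨mat a⁻¹, mat_inv_mul a, mat_mul_inv a⟩
    rw [h1]
    exact Matrix.blockTriangular_inv_of_blockTriangular ha

/-- The block diagonal part. -/
private def AM_lam (β : Fin m → Fin m) (y : Gl m) : Gl m := fun k l => if β k = β l then y k l else 0

private theorem AM_lam_mul {β : Fin m → Fin m} {x y : Gl m} (hx : x.BlockTriangular β)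
    (hy : y.BlockTriangular β) : AM_lam β (x * y) = AM_lam β x * AM_lam β y := by
  ext k l
  rw [Matrix.mul_apply]
  unfold AM_lam
  by_cases h : β k = β l
  · rw [if_pos h, Matrix.mul_apply]
    refine Finset.sum_congr rfl fun r _ => ?_
    by_cases h1 : β k = β r
    · rw [if_pos h1, if_pos (h1.symm.trans h)]
    · rw [if_neg h1, zero_mul]
      rcases lt_or_gt_of_ne h1 with h2 | h2
      · have h3 : y r l = 0 := hy (by rw [← h]; exact h2)
        rw [h3, mul_zero]
      · have h3 : x k r = 0 := hx h2
        rw [h3, zero_mul]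
  · rw [if_neg h]
    symm
    refine Finset.sum_eq_zero fun r _ => ?_
    by_cases h1 : β k = β r
    · have h2 : ¬ β r = β l := fun h3 => h (h1.trans h3)
      rw [if_neg h2, mul_zero]
    · rw [if_neg h1, zero_mul]

private theorem AM_lam_bt {β : Fin m → Fin m} (x : Gl m) : (AM_lam β x).BlockTriangular β :=
  fun _ _ h => if_neg (ne_of_gt h)

private theorem AM_lam_det {β : Fin m → Fin m} {x : Gl m} (hx : x.BlockTriangular β) :
    (AM_lam β x).det = x.det := by
  rw [(AM_lam_bt x).det, hx.det]
  refine Finset.prod_congr rfl fun a _ => ?_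
  have h : (AM_lam β x).toSquareBlock β a = x.toSquareBlock β a := by
    ext k l
    exact if_pos (k.2.trans l.2.symm)
  rw [h]

/-- The projection to the block diagonal matrices. -/
private def AM_la (β : Fin m → Fin m) : AM_P β →* AM_P β :=
  MonoidHom.mk' (fun p => ⟨⟨AM_lam β (mat p.1), (AM_lam_det p.2).trans p.1.2⟩, AM_lam_bt _⟩)
    fun a b => by
      refine Subtype.ext (Subtype.ext ?_)
      change AM_lam β (mat (a.1 * b.1)) = AM_lam β (mat a.1) * AM_lam β (mat b.1)
      rw [mat_mul]
      exact AM_lam_mul a.2 b.2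

private theorem AM_la_mat (β : Fin m → Fin m) (p : AM_P β) :
    mat (AM_la β p).1 = AM_lam β (mat p.1) := rfl

private theorem AM_ext {β : Fin m → Fin m} {p q : AM_P β} (h : ∀ k l, mat p.1 k l = mat q.1 k l) :
    p = q := Subtype.ext (Subtype.ext (Matrix.ext h))

private theorem AM_la_la (β : Fin m → Fin m) (p : AM_P β) : AM_la β (AM_la β p) = AM_la β p := by
  refine AM_ext fun k l => ?_
  rw [AM_la_mat, AM_la_mat]
  unfold AM_lam
  by_cases h : β k = β l
  · rw [if_pos h]
  · rw [if_neg h, if_neg h]

private theorem AM_le {β : Fin m → Fin m} (hβ : Monotone β) : Bor m ≤ AM_P β := by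
  intro b hb k l h
  refine hb k l (not_le.1 fun h1 => ?_)
  exact absurd (hβ h1) (not_le.2 h)

/-- The upper triangular part of an element of the parabolic. -/
private def AM_n {β : Fin m → Fin m} (hβ : Monotone β) (p : AM_P β) : Bo m :=
  ⟨(p * (AM_la β p)⁻¹).1, by
    intro k l h
    rcases lt_or_eq_of_le (hβ h.le) with h1 | h1
    · exact (p * (AM_la β p)⁻¹).2 h1
    · have h2 : AM_la β (p * (AM_la β p)⁻¹) = 1 := by
        rw [map_mul, map_inv, AM_la_la, mul_inv_cancel]
      have h3 : mat (AM_la β (p * (AM_la β p)⁻¹)).1 k l = (1 : Gl m) k l := by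
        rw [h2]
        change mat (1 : SLm m) k l = _
        rw [mat_one]
      rw [AM_la_mat] at h3
      unfold AM_lam at h3
      rw [if_pos h1.symm] at h3
      rw [h3]
      exact Matrix.one_apply_ne (ne_of_gt h)⟩

private theorem AM_n_inc {β : Fin m → Fin m} (hβ : Monotone β) (p : AM_P β) :
    Subgroup.inclusion (AM_le hβ) (AM_n hβ p) = p * (AM_la β p)⁻¹ := Subtype.ext rfl

/-- The functions on the parabolic which are invariant under the Levi subgroup. -/
private def AM_A (V : Type) [AddCommGroup V] [Module ℂ V] (β : Fin m → Fin m) :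
    Submodule ℂ (AM_P β → V) where
  carrier := {f | Reg f ∧ ∀ p l, AM_la β l = l → f (p * l) = f p}
  add_mem' {f g} hf hg := ⟨hf.1.add hg.1, fun p l hl => by
      rw [Pi.add_apply, Pi.add_apply, hf.2 p l hl, hg.2 p l hl]⟩
  zero_mem' := ⟨Reg.zero, fun _ _ _ => rfl⟩
  smul_mem' c f hf := ⟨hf.1.cSmul c, fun p l hl => by
      rw [Pi.smul_apply, Pi.smul_apply, hf.2 p l hl]⟩

section mor

variable {X : Type} [Co X]

private theorem AM_morP {β : Fin m → Fin m} {f : X → AM_P β} (h : Mor fun x => (f x).1) : Mor f :=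
  h

private theorem AM_morS {H : Subgroup (SLm m)} {f : X → H} (h : Mor f) :
    Mor fun x => (f x).1 := h

private theorem AM_mul (hM : S_Mor) {f g : X → SLm m} (hf : Mor f) (hg : Mor g) :
    Mor fun x => f x * g x :=
  Mor.comp (f := fun p : SLm m × SLm m => p.1 * p.2) (hM m).1 (Mor.pair hf hg)

private theorem AM_inv (hM : S_Mor) {f : X → SLm m} (hf : Mor f) : Mor fun x => (f x)⁻¹ :=
  Mor.comp (f := fun g : SLm m => g⁻¹) (hM m).2.1 hf

private theorem AM_morla {β : Fin m → Fin m} {f : X → AM_P β} (h : Mor f) :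
    Mor fun x => AM_la β (f x) := by
  intro q
  change RegF fun x => AM_lam β (mat (f x).1) q.1 q.2
  unfold AM_lam
  by_cases h1 : β q.1 = β q.2
  · simp only [if_pos h1]
    exact h q
  · simp only [if_neg h1]
    exact RegF.const 0

end mor

/-- The action of a group `H` through a homomorphism to the parabolic. -/
private theorem AM_act (hM : S_Mor) {V : Type} [AddCommGroup V] [Module ℂ V] {β : Fin m → Fin m}
    {H : Type} [Group H] [Co H] (τ : Representation ℂ H V) (hτ : Rat τ) (φ : H →* AM_P β)
    (hφ : Mor φ) : ∃ τA : Representation ℂ H (AM_A V β),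
      (∀ h f p, (τA h f).1 p = τ h (f.1 ((φ h)⁻¹ * p))) ∧ Rat τA := by
  have key : ∀ (h : H) (f : AM_A V β), (fun p => τ h (f.1 ((φ h)⁻¹ * p))) ∈ AM_A V β := by
    intro h f
    refine ⟨?_, fun p l hl => ?_⟩
    · refine Reg.map (Reg.comp f.2.1 ?_) (τ h)
      exact AM_morP (AM_mul hM (Mor.const _) (AM_morS Mor.id))
    · beta_reduce
      rw [← mul_assoc, f.2.2 _ l hl]
  let τA : Representation ℂ H (AM_A V β) :=
    { toFun := fun h =>
        { toFun := fun f => ⟨fun p => τ h (f.1 ((φ h)⁻¹ * p)), key h f⟩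
          map_add' := fun f g => Subtype.ext (funext fun p => map_add (τ h) _ _)
          map_smul' := fun c f => Subtype.ext (funext fun p => map_smul (τ h) c _) }
      map_one' := by
        refine LinearMap.ext fun f => Subtype.ext (funext fun p => ?_)
        change τ 1 (f.1 ((φ 1)⁻¹ * p)) = f.1 p
        rw [map_one, map_one, inv_one, one_mul]
        rfl
      map_mul' := fun a b => by
        refine LinearMap.ext fun f => Subtype.ext (funext fun p => ?_)
        change τ (a * b) (f.1 ((φ (a * b))⁻¹ * p)) =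
          τ a (τ b (f.1 ((φ b)⁻¹ * ((φ a)⁻¹ * p))))
        rw [map_mul, map_mul, mul_inv_rev, mul_assoc]
        rfl }
  refine ⟨τA, fun h f p => rfl, fun f => ?_⟩
  have h1 : Reg fun q : H × AM_P β => f.1 ((φ q.1)⁻¹ * q.2) := by
    refine Reg.comp f.2.1 ?_
    exact AM_morP (AM_mul hM (AM_inv hM (AM_morS (Mor.comp hφ Mor.fst))) (AM_morS Mor.snd))
  have h2 : Reg fun q : H × AM_P β => τ q.1 (f.1 ((φ q.1)⁻¹ * q.2)) :=
    Reg.act (θ := fun h => τ h) hτ (g := fun q : H × AM_P β => q.1) Mor.fst h1
  exact Reg.codRestrict (Reg.curry h2) (AM_A V β) fun h => key h f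

private theorem AM_mulU {i j : Fin m} {u : ℂ → Bo m} (hu : IsU i j u) (b : Bo m)
    (s : ℂ) (k l : Fin m) :
    mB (b * u s) k l = mB b k l + if l = j then mB b k i * s else 0 := by
  rw [mB_mul, Matrix.mul_apply]
  simp only [hu s, mul_add, Finset.sum_add_distrib]
  have h1 : ∑ x, mB b k x * (if x = l then (1 : ℂ) else 0) = mB b k l := by
    simp
  have h2 : ∑ x, mB b k x * (if x = i ∧ l = j then s else 0) =
      if l = j then mB b k i * s else 0 := by
    by_cases hl : l = j
    · simp [hl]
    · simp [hl]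
  rw [h1, h2]

theorem tAM : S_Mor → S_Emb → S_AM := by
  intro hM hE m i j hij c V _ _ ρ σ hA u hu
  have hij1 : i < j := by
    rw [Fin.lt_def]
    omega
  obtain ⟨⟨e, he, hem⟩, -, -, huniq⟩ := hE m i j hij
  -- the block function
  obtain ⟨β, hβd⟩ : ∃ β : Fin m → Fin m, ∀ k, β k = if k = j then i else k := ⟨_, fun _ => rfl⟩
  have hβj : β j = i := by rw [hβd, if_pos rfl]
  have hβn : ∀ k, k ≠ j → β k = k := fun k hk => by rw [hβd, if_neg hk]
  have hβi : β i = i := hβn i (ne_of_lt hij1)
  have hβ : Monotone β := by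
    intro k l hkl
    by_cases hk : k = j
    · rw [hk, hβj]
      by_cases hl : l = j
      · rw [hl, hβj]
      · rw [hβn l hl]
        exact hij1.le.trans (hk ▸ hkl)
    · rw [hβn k hk]
      by_cases hl : l = j
      · rw [hl, hβj]
        have h1 : k.val ≤ j.val := by
          rw [hl] at hkl
          exact hkl
        have h2 : k.val ≠ j.val := fun h => hk (Fin.ext h)
        rw [Fin.le_def]
        omega
      · rw [hβn l hl]
        exact hkl
  have hβe : ∀ k l, k < l → β k = β l → k = i ∧ l = j := by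
    intro k l hkl h
    by_cases hl : l = j
    · refine ⟨?_, hl⟩
      rw [hl, hβj, hβn k (by rw [← hl]; exact ne_of_lt hkl)] at h
      exact h
    · exfalso
      rw [hβn l hl] at h
      by_cases hk : k = j
      · rw [hk, hβj] at h
        rw [hk, ← h] at hkl
        exact absurd hkl (not_lt.2 hij1.le)
      · rw [hβn k hk] at h
        exact (ne_of_lt hkl) h
  -- the homomorphisms to the parabolic
  let inc : Bo m →* AM_P β := Subgroup.inclusion (AM_le hβ)
  have hincM : Mor inc := fun q => RegF.co (X := Bo m) q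
  have heP : ∀ g, e g ∈ AM_P β := by
    intro g k l hkl
    have h1 : ¬ k = l := fun h => by
      rw [h] at hkl
      exact lt_irrefl _ hkl
    rw [he g k l]
    by_cases hk : k = i
    · rw [if_pos hk]
      by_cases hl : l = i
      · exact absurd (hk.trans hl.symm) h1
      · rw [if_neg hl]
        by_cases hl2 : l = j
        · rw [hk, hl2, hβj, hβi] at hkl
          exact absurd hkl (lt_irrefl _)
        · rw [if_neg hl2]
    · rw [if_neg hk]
      by_cases hk2 : k = j
      · rw [if_pos hk2]
        by_cases hl : l = i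
        · rw [hk2, hl, hβj, hβi] at hkl
          exact absurd hkl (lt_irrefl _)
        · rw [if_neg hl]
          by_cases hl2 : l = j
          · exact absurd (hk2.trans hl2.symm) h1
          · rw [if_neg hl2]
      · rw [if_neg hk2, if_neg h1]
  let eP : SLm 2 →* AM_P β := e.codRestrict (AM_P β) heP
  have hePM : Mor eP := fun q => hem q
  obtain ⟨ρA, hρA, hρAr⟩ := AM_act hM ρ hA.rat inc hincM
  obtain ⟨σA, hσA, hσAr⟩ := AM_act hM σ hA.rat2 eP hePM
  -- elements of the Levi subgroup
  have hLu : ∀ s, AM_la β (inc (u s)) = inc (u s) := by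
    intro s
    refine AM_ext fun k l => ?_
    rw [AM_la_mat]
    unfold AM_lam
    by_cases h : β k = β l
    · rw [if_pos h]
    · rw [if_neg h]
      change (0 : ℂ) = mB (u s) k l
      rw [hu s k l, if_neg (fun h1 => h (by rw [h1])), if_neg (fun h1 => h (by
        rw [h1.1, h1.2, hβj, hβi])), add_zero]
  have hLt : ∀ t : Bo m, IsT t → AM_la β (inc t) = inc t := by
    intro t ht
    refine AM_ext fun k l => ?_
    rw [AM_la_mat]
    unfold AM_lam
    by_cases h : β k = β l
    · rw [if_pos h]
    · rw [if_neg h]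
      change (0 : ℂ) = mB t k l
      rw [ht k l (fun h1 => h (by rw [h1]))]
  have hune : i ≠ j := ne_of_lt hij1
  have huinv : ∀ s, u (-s) * u s = 1 := by
    intro s
    refine Subtype.ext (Subtype.ext (Matrix.ext fun k l => ?_))
    change mB (u (-s) * u s) k l = mB 1 k l
    have h1 : mB (1 : Bo m) k l = if k = l then 1 else 0 := by
      change (1 : Gl m) k l = _
      rw [Matrix.one_apply]
    rw [AM_mulU hu, hu, hu, h1]
    by_cases hl : l = j
    · by_cases hk : k = i
      · rw [hl, hk]
        simp [hune]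
      · rw [hl]
        simp [hk]
    · simp [hl]
  have hdec : ∀ y : Bo m, AM_la β (inc y) = inc y → ∃ t s, IsT t ∧ y = t * u s := by
    intro y hy
    have hy0 : ∀ k l, β k ≠ β l → mB y k l = 0 := by
      intro k l h
      have h1 : mat (AM_la β (inc y)).1 k l = mat (inc y).1 k l := by rw [hy]
      rw [AM_la_mat] at h1
      unfold AM_lam at h1
      rw [if_neg h] at h1
      exact h1.symm
    refine ⟨y * u (-(mB y i j / mB y i i)), mB y i j / mB y i i, fun k l hkl => ?_, ?_⟩
    · rw [AM_mulU hu]
      by_cases h : β k = β l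
      · rcases lt_or_gt_of_ne hkl with h1 | h1
        · obtain ⟨h2, h3⟩ := hβe k l h1 h
          rw [h2, h3, if_pos rfl]
          have h4 := mB_diag_ne y i
          field_simp
          ring
        · obtain ⟨h2, h3⟩ := hβe l k h1 h.symm
          rw [h2, h3, if_neg hune, add_zero]
          exact y.2 j i hij1
      · rw [hy0 k l h, zero_add]
        by_cases hl : l = j
        · rw [if_pos hl]
          have h1 : β k ≠ β i := by
            rw [hl, hβj] at h
            rw [hβi]
            exact h
          rw [hy0 k i h1, zero_mul]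
        · rw [if_neg hl]
    · rw [mul_assoc, huinv, mul_one]
  have hchr : ∀ t : Bo m, chr (0 : Fin m → ℤ) t = 1 := by
    intro t
    unfold chr
    exact Finset.prod_eq_one fun k _ => by rw [Pi.zero_apply, zpow_zero]
  let ι : V →ₗ[ℂ] AM_A V β :=
    { toFun := fun v => ⟨fun _ => v, Reg.const v, fun _ _ _ => rfl⟩
      map_add' := fun _ _ => rfl
      map_smul' := fun _ _ => rfl }
  refine ⟨AM_A V β, inferInstance, inferInstance, ρA, σA, ι, ⟨hρAr, hσAr, ?_⟩, ?_, ?_, ?_, ?_⟩
  · intro g b hg hb
    refine LinearMap.ext fun f => Subtype.ext (funext fun p => ?_)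
    have h1 : inc b = eP g := Subtype.ext (huniq g b.1 (e g) hb (he g))
    change (ρA b f).1 p = mat g 0 0 ^ c • (σA g f).1 p
    rw [hρA, hσA, hA.agree g b hg hb, h1]
    rfl
  · intro v w h
    exact congrFun (congrArg Subtype.val h) 1
  · intro b v
    refine Subtype.ext (funext fun p => ?_)
    rw [hρA]
    rfl
  · intro g v
    refine Subtype.ext (funext fun p => ?_)
    rw [hσA]
    rfl
  · intro θ hθ
    have hto : ∀ f : AM_A V β, (fun b => f.1 (inc b)) ∈ Hs V (Set.range u) 0 := by
      intro f
      refine ⟨Reg.comp f.2.1 hincM, ?_, ?_⟩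
      · rintro b _ ⟨s, rfl⟩
        beta_reduce
        rw [map_mul, f.2.2 _ _ (hLu s)]
      · intro b t ht
        beta_reduce
        rw [map_mul, f.2.2 _ _ (hLt t ht), hchr, one_smul]
    have hinvt : ∀ F : Hs V (Set.range u) 0, (fun p => F.1 (AM_n hβ p)) ∈ AM_A V β := by
      intro F
      refine ⟨Reg.comp F.2.1 ?_, fun p l hl => ?_⟩
      · have h1 : Mor fun p : AM_P β => p.1 * ((AM_la β p).1)⁻¹ :=
          AM_mul hM (AM_morS Mor.id) (AM_inv hM (AM_morS (AM_morla Mor.id)))
        exact h1
      · have h1 : AM_n hβ (p * l) = AM_n hβ p := by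
          refine Subtype.ext ?_
          change (p * l * (AM_la β (p * l))⁻¹).1 = (p * (AM_la β p)⁻¹).1
          rw [map_mul, hl, mul_inv_rev, mul_assoc, mul_inv_cancel_left]
        beta_reduce
        rw [h1]
    refine ⟨{ toFun := fun f => ⟨fun b => f.1 (inc b), hto f⟩
              map_add' := fun _ _ => rfl
              map_smul' := fun _ _ => rfl
              invFun := fun F => ⟨fun p => F.1 (AM_n hβ p), hinvt F⟩
              left_inv := ?_
              right_inv := ?_ }, ?_⟩
    · intro f
      refine Subtype.ext (funext fun p => ?_)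
      change f.1 (inc (AM_n hβ p)) = f.1 p
      have h1 : inc (AM_n hβ p) = p * (AM_la β p)⁻¹ := AM_n_inc hβ p
      rw [h1]
      refine f.2.2 p _ ?_
      rw [map_inv, AM_la_la]
    · intro F
      refine Subtype.ext (funext fun b => ?_)
      change F.1 (AM_n hβ (inc b)) = F.1 b
      have h1 : inc (b⁻¹ * AM_n hβ (inc b)) = (AM_la β (inc b))⁻¹ := by
        have h2 : inc (AM_n hβ (inc b)) = inc b * (AM_la β (inc b))⁻¹ := AM_n_inc hβ (inc b)
        rw [map_mul, h2, map_inv, inv_mul_cancel_left]
      obtain ⟨t, s, ht, hts⟩ := hdec (b⁻¹ * AM_n hβ (inc b)) (by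
        rw [h1, map_inv, AM_la_la])
      have h3 : AM_n hβ (inc b) = b * t * u s := by
        rw [mul_assoc, ← hts, mul_inv_cancel_left]
      rw [h3, F.2.2.1 _ _ ⟨s, rfl⟩, F.2.2.2 _ _ ht, hchr, one_smul]
    · intro b a
      refine Subtype.ext (funext fun x => ?_)
      rw [hθ]
      change (ρA b a).1 (inc x) = ρ b (a.1 (inc (b⁻¹ * x)))
      rw [hρA, map_mul, map_inv]

end PV
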