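import Pool.Agent.Lib.MP_3b3418_ag.PV.SpecJ

/-!
# Coinduced modules from the torus are acyclic
-/

set_option autoImplicit false

namespace PV

open MP3s

section

variable {m : ℕ} {V : Type} [AddCommGroup V] [Module ℂ V] {S : Set (Bo m)} {χ : Fin m → ℤ}

/-- evaluation at a point -/
private noncomputable def Acy_ev (x : Bo m) : Hs V S χ →ₗ[ℂ] V :=
  (LinearMap.proj x).comp (Hs V S χ).subtype

private theorem Acy_ev_apply (x : Bo m) (f : Hs V S χ) : Acy_ev x f = f.1 x := rfl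

private theorem Acy_mor_cons (q : ℕ) :
    Mor (fun z : Bo m × ((Fin (q + 1) → Bo m) × Bo m) =>
      (Fin.cons z.1 z.2.1 : Fin (q + 2) → Bo m)) := by
  refine Mor.pi fun r => ?_
  refine Fin.cases ?_ (fun r => ?_) r
  · simp only [Fin.cons_zero]
    exact Mor.fst
  · simp only [Fin.cons_succ]
    exact (Mor.proj r).comp (Mor.fst.comp Mor.snd)

private theorem Acy_regF (q : ℕ) {φ : (Fin (q + 2) → Bo m) → Hs V S χ} (hφ : Reg φ) :
    Reg (fun z : Bo m × ((Fin (q + 1) → Bo m) × Bo m) =>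
      (φ (Fin.cons z.1 z.2.1)).1 z.2.2) := by
  obtain ⟨n, a, v, ha, h1⟩ := hφ
  have h2 : Reg fun z : Bo m × ((Fin (q + 1) → Bo m) × Bo m) =>
      ∑ k : Fin n, a k (Fin.cons z.1 z.2.1 : Fin (q + 2) → Bo m) • (v k).1 z.2.2 :=
    Reg.sum Finset.univ fun k _ =>
      Reg.smul ((v k).2.1.comp (Mor.snd.comp Mor.snd)) ((ha k).comp (Acy_mor_cons q))
  have h3 : (fun z : Bo m × ((Fin (q + 1) → Bo m) × Bo m) =>
      (φ (Fin.cons z.1 z.2.1)).1 z.2.2) = fun z =>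
      ∑ k : Fin n, a k (Fin.cons z.1 z.2.1 : Fin (q + 2) → Bo m) • (v k).1 z.2.2 := by
    funext z
    rw [h1, ← Acy_ev_apply, map_sum]
    exact Finset.sum_congr rfl fun k _ => by rw [map_smul, Acy_ev_apply]
  rw [h3]
  exact h2

/-- the homotopy before averaging -/
private def Acy_F (q : ℕ) (φ : (Fin (q + 2) → Bo m) → Hs V S χ) :
    Bo m × ((Fin (q + 1) → Bo m) × Bo m) → V :=
  fun z => (φ (Fin.cons z.1 z.2.1)).1 z.2.2

/-- the homotopy -/
private noncomputable def Acy_h (q : ℕ) (φ : (Fin (q + 2) → Bo m) → Hs V S χ)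
    (A : Finset (Bo m)) (β : Fin (q + 1) → Bo m) (x : Bo m) : V :=
  (A.card : ℂ)⁻¹ • ∑ a ∈ A, Acy_F q φ (x * a, (β, x))

private theorem Acy_reg2 (hMor : S_Mor) (q : ℕ) {φ : (Fin (q + 2) → Bo m) → Hs V S χ}
    (hφ : Reg φ) (A : Finset (Bo m)) :
    Reg (fun z : (Fin (q + 1) → Bo m) × Bo m => Acy_h q φ A z.1 z.2) := by
  unfold Acy_h
  refine Reg.cSmul ?_ _
  refine Reg.sum A fun a _ => ?_
  have hmul := (hMor m).2.2.1
  have h1 : Mor fun z : (Fin (q + 1) → Bo m) × Bo m => z.2 * a :=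
    hmul.comp (Mor.pair Mor.snd (Mor.const a))
  have h2 : Mor fun z : (Fin (q + 1) → Bo m) × Bo m => (z.2 * a, (z.1, z.2)) :=
    Mor.pair h1 (Mor.pair Mor.fst Mor.snd)
  exact (Acy_regF q hφ).comp h2

private theorem Acy_reg1 (hMor : S_Mor) (q : ℕ) {φ : (Fin (q + 2) → Bo m) → Hs V S χ}
    (hφ : Reg φ) (A : Finset (Bo m)) (β : Fin (q + 1) → Bo m) :
    Reg (fun x : Bo m => Acy_h q φ A β x) := by
  have h := (Acy_reg2 hMor q hφ A).comp
    (Mor.pair (Mor.const (X := Bo m) β) (Mor.id (X := Bo m)))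
  exact h

private theorem Acy_mem (hMor : S_Mor) (q : ℕ) {φ : (Fin (q + 2) → Bo m) → Hs V S χ}
    (hφ : Reg φ) (hS : ∀ n ∈ S, n = 1) (A : Finset (Bo m))
    (hA : ∀ (b t : Bo m) (x : (Fin (q + 1) → Bo m) × Bo m), IsT t →
      ∑ a ∈ A, Acy_F q φ (b * t * a, x) = ∑ a ∈ A, Acy_F q φ (b * a, x))
    (β : Fin (q + 1) → Bo m) : Acy_h q φ A β ∈ Hs V S χ := by
  refine ⟨Acy_reg1 hMor q hφ A β, fun b n hn => ?_, fun b t ht => ?_⟩
  · rw [hS n hn, mul_one]
  · have h1 : ∀ a ∈ A, Acy_F q φ (b * t * a, (β, b * t)) =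
        chr χ t • Acy_F q φ (b * t * a, (β, b)) := fun a _ =>
      (φ (Fin.cons (b * t * a) β)).2.2.2 b t ht
    unfold Acy_h
    rw [Finset.sum_congr rfl h1, ← Finset.smul_sum, hA b t (β, b) ht, smul_comm]

private theorem Acy_cons_mul {q : ℕ} (b y : Bo m) (β : Fin (q + 1) → Bo m) :
    (Fin.cons (b * y) (fun r => b * β r) : Fin (q + 2) → Bo m) =
      fun r => b * (Fin.cons y β : Fin (q + 2) → Bo m) r := by
  funext r
  refine Fin.cases ?_ (fun r => ?_) r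
  · simp only [Fin.cons_zero]
  · simp only [Fin.cons_succ]

private theorem Acy_eq {q : ℕ} {φ : (Fin (q + 2) → Bo m) → Hs V S χ}
    (h0 : cob (q + 1) φ = 0) (β : Fin (q + 2) → Bo m) (y x : Bo m) :
    (φ β).1 x = ∑ j : Fin (q + 2), (-1 : ℂ) ^ (j : ℕ) •
      Acy_F q φ (y, (fun r => β (j.succAbove r), x)) := by
  have h1 := congrFun h0 (Fin.cons y β : Fin (q + 3) → Bo m)
  unfold cob at h1
  rw [Fin.sum_univ_succ] at h1
  have h2 : (fun r => (Fin.cons y β : Fin (q + 3) → Bo m) ((0 : Fin (q + 3)).succAbove r)) = β := by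
    funext r
    rw [Fin.succAbove_zero, Fin.cons_succ]
  have h3 : ∀ j : Fin (q + 2), (fun r => (Fin.cons y β : Fin (q + 3) → Bo m)
      (j.succ.succAbove r)) = (Fin.cons y (fun r => β (j.succAbove r)) : Fin (q + 2) → Bo m) := by
    intro j
    funext r
    refine Fin.cases ?_ (fun r => ?_) r
    · rw [Fin.succ_succAbove_zero, Fin.cons_zero, Fin.cons_zero]
    · rw [Fin.succ_succAbove_succ, Fin.cons_succ, Fin.cons_succ]
  rw [h2] at h1
  have h4 : ∑ j : Fin (q + 2), (-1 : ℂ) ^ ((j.succ : Fin (q + 3)) : ℕ) •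
      φ (fun r => (Fin.cons y β : Fin (q + 3) → Bo m) (j.succ.succAbove r)) =
      - ∑ j : Fin (q + 2), (-1 : ℂ) ^ (j : ℕ) •
        φ (Fin.cons y (fun r => β (j.succAbove r)) : Fin (q + 2) → Bo m) := by
    rw [← Finset.sum_neg_distrib]
    refine Finset.sum_congr rfl fun j _ => ?_
    rw [h3 j, Fin.val_succ, pow_succ, mul_neg_one]
    exact neg_smul ((-1 : ℂ) ^ (j : ℕ))
      (φ (Fin.cons y (fun r => β (j.succAbove r)) : Fin (q + 2) → Bo m))
  rw [h4, Fin.val_zero, pow_zero, one_smul, Pi.zero_apply, ← sub_eq_add_neg, sub_eq_zero] at h1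
  rw [← Acy_ev_apply, h1, map_sum]
  refine Finset.sum_congr rfl fun j _ => ?_
  rw [map_smul]
  rfl

end

theorem tAcy : S_Mor → S_Avg → S_HRep → S_Acy := by
  intro hMor hAvg _ m V _ _ ρ _ S χ hS θ hθ q φ hφ h0
  obtain ⟨A, hAne, _, hA⟩ := hAvg m ((Fin (q + 1) → Bo m) × Bo m) V (Acy_F q φ)
    (Acy_regF q hφ.1)
  have hcard : (A.card : ℂ) ≠ 0 := by
    rw [Nat.cast_ne_zero]
    exact hAne.card_ne_zero
  have hmem := Acy_mem hMor q hφ.1 hS A hA
  refine ⟨fun β => ⟨Acy_h q φ A β, hmem β⟩, ⟨?_, ?_⟩, ?_⟩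
  · exact (Reg.curry (Acy_reg2 hMor q hφ.1 A)).codRestrict (Hs V S χ) hmem
  · intro b β
    refine Subtype.ext (funext fun x => ?_)
    rw [hθ b _ x]
    change Acy_h q φ A (fun r => b * β r) x = ρ b (Acy_h q φ A β (b⁻¹ * x))
    unfold Acy_h
    rw [map_smul, map_sum]
    refine congrArg _ (Finset.sum_congr rfl fun a _ => ?_)
    change (φ (Fin.cons (x * a) fun r => b * β r)).1 x =
      ρ b ((φ (Fin.cons (b⁻¹ * x * a) β)).1 (b⁻¹ * x))
    have h1 : x * a = b * (b⁻¹ * x * a) := by group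
    rw [h1, Acy_cons_mul, hφ.2, hθ]
  · funext β
    refine Subtype.ext (funext fun x => ?_)
    have h1 : (cob q (fun β => (⟨Acy_h q φ A β, hmem β⟩ : Hs V S χ)) β).1 x =
        ∑ j : Fin (q + 2), (-1 : ℂ) ^ (j : ℕ) • Acy_h q φ A (fun r => β (j.succAbove r)) x := by
      unfold cob
      rw [← Acy_ev_apply, map_sum]
      refine Finset.sum_congr rfl fun j _ => ?_
      rw [map_smul]
      rfl
    rw [h1]
    change _ = (φ β).1 x
    have h2 : (φ β).1 x = (A.card : ℂ)⁻¹ • ∑ a ∈ A, (φ β).1 x := by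
      rw [Finset.sum_const, ← Nat.cast_smul_eq_nsmul ℂ, smul_smul, inv_mul_cancel₀ hcard, one_smul]
    rw [h2, Finset.sum_congr rfl fun a _ => Acy_eq h0 β (x * a) x, Finset.sum_comm,
      Finset.smul_sum]
    refine Finset.sum_congr rfl fun j _ => ?_
    unfold Acy_h
    rw [smul_comm, Finset.smul_sum]

end PV
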