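import Pool.Agent.Lib.MP_3b3418_ag.PV.SpecJ

/-!
# Averages over a finite subgroup of the torus
-/

set_option autoImplicit false

namespace PV

open MP3s

private theorem Avg_col {m : ℕ} (b t : Bo m) (ht : IsT t) (k l : Fin m) :
    mB (b * t) k l = mB b k l * mB t l l := by
  rw [mB_mul, Matrix.mul_apply]
  refine Finset.sum_eq_single l (fun r _ hr => ?_) fun h => absurd (Finset.mem_univ l) h
  rw [ht r l hr, mul_zero]

private theorem Avg_mul {m : ℕ} {a b : Bo m} (ha : IsT a) (hb : IsT b) : IsT (a * b) := by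
  intro i j hij
  rw [Avg_col a b hb, ha i j hij, zero_mul]

private theorem Avg_prod {m : ℕ} {t : Bo m} (ht : IsT t) : ∏ i, mB t i i = 1 := by
  have h1 : mB t = Matrix.diagonal (fun i => mB t i i) := by
    ext i j
    by_cases hij : i = j
    · subst hij
      rw [Matrix.diagonal_apply_eq]
    · rw [Matrix.diagonal_apply_ne _ hij]
      exact ht i j hij
  have h2 : (mB t).det = 1 := t.1.2
  rw [h1, Matrix.det_diagonal] at h2
  exact h2

/-- The diagonal element with the entries `d`. -/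
private noncomputable def Avg_el {m : ℕ} (d : Fin m → ℂ) (hd : ∏ i, d i = 1) : Bo m :=
  ⟨⟨Matrix.diagonal d, by rw [Matrix.det_diagonal, hd]⟩,
    fun i j hij => Matrix.diagonal_apply_ne d (ne_of_gt hij)⟩

private theorem Avg_el_mB {m : ℕ} (d : Fin m → ℂ) (hd : ∏ i, d i = 1) :
    mB (Avg_el d hd) = Matrix.diagonal d := rfl

private theorem Avg_el_T {m : ℕ} (d : Fin m → ℂ) (hd : ∏ i, d i = 1) : IsT (Avg_el d hd) := by
  intro i j hij
  rw [Avg_el_mB]
  exact Matrix.diagonal_apply_ne d hij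

/-- The elements of the torus of exponent `N`. -/
private def Avg_set (m N : ℕ) : Set (Bo m) := {t | IsT t ∧ ∀ i, mB t i i ^ N = 1}

private theorem Avg_fin (m N : ℕ) (hN : 0 < N) : (Avg_set m N).Finite := by
  have h1 : {z : ℂ | z ^ N = 1}.Finite := by
    have h2 : {z : ℂ | z ^ N = 1} ⊆ ((Polynomial.nthRoots N (1 : ℂ)).toFinset : Set ℂ) := by
      intro z hz
      have h3 : z ∈ Polynomial.nthRoots N (1 : ℂ) := (Polynomial.mem_nthRoots hN).mpr hz
      simpa using h3
    exact (Finset.finite_toSet _).subset h2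
  have h4 : (Set.pi Set.univ (fun _ : Fin m => {z : ℂ | z ^ N = 1})).Finite :=
    Set.Finite.pi (fun _ => h1)
  refine Set.Finite.of_finite_image (f := fun t : Bo m => fun i => mB t i i) (h4.subset ?_) ?_
  · rintro _ ⟨t, ht, rfl⟩ i _
    exact ht.2 i
  · intro s hs t ht hst
    apply Subtype.ext
    apply Subtype.ext
    ext i j
    change mB s i j = mB t i j
    by_cases hij : i = j
    · subst hij
      exact congrFun hst i
    · rw [hs.1 i j hij, ht.1 i j hij]

open Classical in
private noncomputable def Avg_A (m N : ℕ) (hN : 0 < N) : Finset (Bo m) := (Avg_fin m N hN).toFinset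

private theorem Avg_mem {m N : ℕ} (hN : 0 < N) (t : Bo m) :
    t ∈ Avg_A m N hN ↔ IsT t ∧ ∀ i, mB t i i ^ N = 1 := by
  unfold Avg_A
  rw [Set.Finite.mem_toFinset]
  rfl

private noncomputable def Avg_sg {m : ℕ} (e : Fin m → ℕ) (t : Bo m) : ℂ := ∏ l, mB t l l ^ e l

private theorem Avg_sg_mul {m : ℕ} (e : Fin m → ℕ) (s t : Bo m) :
    Avg_sg e (s * t) = Avg_sg e s * Avg_sg e t := by
  unfold Avg_sg
  rw [← Finset.prod_mul_distrib]
  exact Finset.prod_congr rfl fun l _ => by rw [mB_diag_mul, mul_pow]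

private theorem Avg_shift {m N : ℕ} (hN : 0 < N) (s : Bo m) (hs : s ∈ Avg_A m N hN)
    (f : Bo m → ℂ) : ∑ a ∈ Avg_A m N hN, f (s * a) = ∑ a ∈ Avg_A m N hN, f a := by
  classical
  have hi : Function.Injective (fun a : Bo m => s * a) := mul_right_injective s
  have h1 : (Avg_A m N hN).image (fun a => s * a) = Avg_A m N hN := by
    refine Finset.eq_of_subset_of_card_le ?_ ?_
    · intro x hx
      rw [Finset.mem_image] at hx
      obtain ⟨a, ha, rfl⟩ := hx
      rw [Avg_mem] at ha hs ⊢
      refine ⟨Avg_mul hs.1 ha.1, fun i => ?_⟩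
      rw [mB_diag_mul, mul_pow, hs.2, ha.2, one_mul]
    · rw [Finset.card_image_of_injective _ hi]
  calc ∑ a ∈ Avg_A m N hN, f (s * a)
      = ∑ a ∈ (Avg_A m N hN).image (fun a => s * a), f a := by
        rw [Finset.sum_image (fun x _ y _ h => hi h)]
    _ = _ := by rw [h1]

private theorem Avg_char {m N : ℕ} (hN : 0 < N) (e : Fin m → ℕ) (he : ∀ l, e l < N) (t : Bo m)
    (ht : IsT t) : Avg_sg e t * ∑ a ∈ Avg_A m N hN, Avg_sg e a =
      ∑ a ∈ Avg_A m N hN, Avg_sg e a := by
  by_cases hc : ∀ i j, e i = e j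
  · have h1 : Avg_sg e t = 1 := by
      unfold Avg_sg
      rcases isEmpty_or_nonempty (Fin m) with h | ⟨⟨i0⟩⟩
      · exact Finset.prod_of_isEmpty _
      · rw [Finset.prod_congr rfl (fun l _ => by rw [hc l i0]), Finset.prod_pow, Avg_prod ht,
          one_pow]
    rw [h1, one_mul]
  · push Not at hc
    obtain ⟨i, j, hij⟩ := hc
    have hne : i ≠ j := fun h => hij (by rw [h])
    obtain ⟨ζ, hζ⟩ : ∃ ζ : ℂ, IsPrimitiveRoot ζ N :=
      ⟨_, Complex.isPrimitiveRoot_exp N hN.ne'⟩
    have hζ0 : ζ ≠ 0 := hζ.ne_zero hN.ne'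
    let d : Fin m → ℂ := fun l => (if l = i then ζ else 1) * (if l = j then ζ⁻¹ else 1)
    have hd : ∏ l, d l = 1 := by
      change ∏ l, ((if l = i then ζ else 1) * (if l = j then ζ⁻¹ else 1)) = 1
      rw [Finset.prod_mul_distrib, Finset.prod_ite_eq' Finset.univ i,
        Finset.prod_ite_eq' Finset.univ j, if_pos (Finset.mem_univ _),
        if_pos (Finset.mem_univ _), mul_inv_cancel₀ hζ0]
    have hdm : ∀ l, mB (Avg_el d hd) l l = d l := by
      intro l
      rw [Avg_el_mB, Matrix.diagonal_apply_eq]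
    have hs : Avg_el d hd ∈ Avg_A m N hN := by
      rw [Avg_mem]
      refine ⟨Avg_el_T d hd, fun l => ?_⟩
      rw [hdm]
      change ((if l = i then ζ else 1) * (if l = j then ζ⁻¹ else 1)) ^ N = 1
      rw [mul_pow]
      have h1 : (if l = i then ζ else 1) ^ N = 1 := by
        split_ifs
        · exact hζ.pow_eq_one
        · exact one_pow _
      have h2 : (if l = j then ζ⁻¹ else (1 : ℂ)) ^ N = 1 := by
        split_ifs
        · rw [inv_pow, hζ.pow_eq_one, inv_one]
        · exact one_pow _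
      rw [h1, h2, one_mul]
    have hsg : Avg_sg e (Avg_el d hd) = ζ ^ e i * (ζ⁻¹) ^ e j := by
      unfold Avg_sg
      have h1 : ∀ l, mB (Avg_el d hd) l l ^ e l =
          (if l = i then ζ ^ e l else 1) * (if l = j then (ζ⁻¹) ^ e l else 1) := by
        intro l
        rw [hdm]
        change ((if l = i then ζ else 1) * (if l = j then ζ⁻¹ else 1)) ^ e l = _
        rw [mul_pow]
        congr 1
        · split_ifs
          · rfl
          · exact one_pow _
        · split_ifs
          · rfl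
          · exact one_pow _
      rw [Finset.prod_congr rfl (fun l _ => h1 l), Finset.prod_mul_distrib,
        Finset.prod_ite_eq' Finset.univ i, Finset.prod_ite_eq' Finset.univ j,
        if_pos (Finset.mem_univ _), if_pos (Finset.mem_univ _)]
    have hsum := Avg_shift hN (Avg_el d hd) hs (Avg_sg e)
    simp only [Avg_sg_mul] at hsum
    rw [← Finset.mul_sum, hsg] at hsum
    have hz : ∑ a ∈ Avg_A m N hN, Avg_sg e a = 0 := by
      by_contra hz
      have h1 : ζ ^ e i * (ζ⁻¹) ^ e j = 1 := by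
        have h2 : (ζ ^ e i * (ζ⁻¹) ^ e j) * ∑ a ∈ Avg_A m N hN, Avg_sg e a =
            1 * ∑ a ∈ Avg_A m N hN, Avg_sg e a := by rw [hsum, one_mul]
        exact mul_right_cancel₀ hz h2
      have h3 : ζ ^ e i = ζ ^ e j := by
        rw [inv_pow] at h1
        exact (mul_inv_eq_one₀ (pow_ne_zero _ hζ0)).mp h1
      exact hij (hζ.pow_inj (he i) (he j) h3)
    rw [hz, mul_zero]

private theorem Avg_mono {m : ℕ} {X : Type} [Co X] (s : Co.I (Bo m × X) →₀ ℕ) (c : ℂ) :
    ∃ e : Fin m → ℕ, ∀ (b t : Bo m) (x : X), IsT t →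
      MvPolynomial.eval (Co.co (b * t, x)) (MvPolynomial.monomial s c) =
        MvPolynomial.eval (Co.co (b, x)) (MvPolynomial.monomial s c) * Avg_sg e t := by
  refine MvPolynomial.induction_on_monomial
    (motive := fun p : MvPolynomial (Co.I (Bo m × X)) ℂ => ∃ e : Fin m → ℕ, ∀ (b t : Bo m) (x : X),
      IsT t → MvPolynomial.eval (Co.co (b * t, x)) p =
        MvPolynomial.eval (Co.co (b, x)) p * Avg_sg e t) ?_ ?_ s c
  · intro a
    refine ⟨0, fun b t x _ => ?_⟩
    rw [MvPolynomial.eval_C, MvPolynomial.eval_C]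
    unfold Avg_sg
    simp
  · intro p i hp
    obtain ⟨e, he⟩ := hp
    rcases i with i | i
    · refine ⟨(e + Pi.single (i.2 : Fin m) 1 : Fin m → ℕ), fun b t x ht => ?_⟩
      rw [map_mul, map_mul, MvPolynomial.eval_X, MvPolynomial.eval_X, he b t x ht]
      have h1 : Co.co (b * t, x) (Sum.inl i : Co.I (Bo m × X)) =
          Co.co (b, x) (Sum.inl i : Co.I (Bo m × X)) * mB t i.2 i.2 := Avg_col b t ht i.1 i.2
      have h2 : Avg_sg (e + Pi.single (i.2 : Fin m) 1 : Fin m → ℕ) t =
          Avg_sg e t * mB t i.2 i.2 := by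
        unfold Avg_sg
        have h3 : ∀ l, mB t l l ^ (e + Pi.single (i.2 : Fin m) 1 : Fin m → ℕ) l =
            mB t l l ^ e l * (if l = i.2 then mB t l l else 1) := by
          intro l
          rw [Pi.add_apply, pow_add]
          congr 1
          by_cases hl : l = i.2
          · rw [if_pos hl, hl, Pi.single_eq_same, pow_one]
          · rw [if_neg hl, Pi.single_eq_of_ne hl, pow_zero]
        rw [Finset.prod_congr rfl (fun l _ => h3 l), Finset.prod_mul_distrib,
          Finset.prod_ite_eq' Finset.univ i.2, if_pos (Finset.mem_univ _)]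
      rw [h1, h2]
      ring
    · refine ⟨e, fun b t x ht => ?_⟩
      rw [map_mul, map_mul, MvPolynomial.eval_X, MvPolynomial.eval_X, he b t x ht]
      have h1 : Co.co (b * t, x) (Sum.inr i : Co.I (Bo m × X)) =
          Co.co (b, x) (Sum.inr i : Co.I (Bo m × X)) := rfl
      rw [h1]
      ring

private theorem Avg_poly {m : ℕ} {X : Type} [Co X] (P : MvPolynomial (Co.I (Bo m × X)) ℂ) :
    ∃ N0 : ℕ, ∀ (N : ℕ) (hN : 0 < N), N0 ≤ N → ∀ (b t : Bo m) (x : X), IsT t →
      ∑ a ∈ Avg_A m N hN, MvPolynomial.eval (Co.co (b * t * a, x)) P =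
        ∑ a ∈ Avg_A m N hN, MvPolynomial.eval (Co.co (b * a, x)) P := by
  induction P using MvPolynomial.induction_on' with
  | monomial s c =>
    obtain ⟨e, he⟩ := Avg_mono (m := m) (X := X) s c
    refine ⟨∑ l, e l + 1, fun N hN hNN b t x ht => ?_⟩
    have hel : ∀ l, e l < N := fun l => by
      have := Finset.single_le_sum (fun i _ => Nat.zero_le (e i)) (Finset.mem_univ l)
      omega
    have h1 : ∀ a ∈ Avg_A m N hN,
        MvPolynomial.eval (Co.co (b * t * a, x)) (MvPolynomial.monomial s c) =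
        MvPolynomial.eval (Co.co (b, x)) (MvPolynomial.monomial s c) * Avg_sg e t *
          Avg_sg e a := by
      intro a ha
      rw [Avg_mem] at ha
      rw [mul_assoc b t a, he b (t * a) x (Avg_mul ht ha.1), Avg_sg_mul, mul_assoc]
    have h2 : ∀ a ∈ Avg_A m N hN,
        MvPolynomial.eval (Co.co (b * a, x)) (MvPolynomial.monomial s c) =
        MvPolynomial.eval (Co.co (b, x)) (MvPolynomial.monomial s c) * Avg_sg e a := by
      intro a ha
      rw [Avg_mem] at ha
      exact he b a x ha.1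
    rw [Finset.sum_congr rfl h1, Finset.sum_congr rfl h2, ← Finset.mul_sum, ← Finset.mul_sum,
      mul_assoc, Avg_char hN e hel t ht]
  | add p q hp hq =>
    obtain ⟨N1, h1⟩ := hp
    obtain ⟨N2, h2⟩ := hq
    refine ⟨max N1 N2, fun N hN hNN b t x ht => ?_⟩
    simp only [map_add, Finset.sum_add_distrib]
    rw [h1 N hN (le_trans (le_max_left _ _) hNN) b t x ht,
      h2 N hN (le_trans (le_max_right _ _) hNN) b t x ht]

theorem tAvg : S_Avg := by
  intro m X V _ _ _ F hF
  obtain ⟨n, a, v, ha, h1⟩ := hF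
  choose P hP using ha
  choose N0 hN0 using fun k => Avg_poly (P k)
  have hN : 0 < ∑ k, N0 k + 1 := Nat.succ_pos _
  refine ⟨Avg_A m (∑ k, N0 k + 1) hN, ⟨1, ?_⟩, fun s hs => ?_, fun b t x ht => ?_⟩
  · rw [Avg_mem]
    refine ⟨fun i j hij => ?_, fun i => ?_⟩
    · change mat (1 : SLm m) i j = 0
      rw [mat_one, Matrix.one_apply_ne hij]
    · change mat (1 : SLm m) i i ^ _ = 1
      rw [mat_one, Matrix.one_apply_eq, one_pow]
  · rw [Avg_mem] at hs
    exact hs.1
  · simp only [h1]
    rw [Finset.sum_comm, Finset.sum_comm (s := Avg_A m (∑ k, N0 k + 1) hN)]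
    refine Finset.sum_congr rfl fun k _ => ?_
    rw [← Finset.sum_smul, ← Finset.sum_smul]
    congr 1
    simp only [hP]
    refine hN0 k _ hN ?_ b t x ht
    have := Finset.single_le_sum (fun i _ => Nat.zero_le (N0 i)) (Finset.mem_univ k)
    omega

end PV
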