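import Pool.Agent.Lib.MP_3b3418_ag.PV.SpecJ

/-!
# Part J: the chain of subgroups of the unipotent group
-/

set_option autoImplicit false

namespace PV

open MP3s

private theorem Chn_tri (n : ℕ) : (n + 1) * (n + 1 - 1) / 2 = n * (n - 1) / 2 + n := by
  rcases n with _ | k
  · rfl
  · have h : (k + 1 + 1) * (k + 1 + 1 - 1) = (k + 1) * (k + 1 - 1) + 2 * (k + 1) := by
      rw [Nat.add_sub_cancel, Nat.add_sub_cancel]
      ring
    rw [h, Nat.add_mul_div_left _ _ (by norm_num)]

private theorem Chn_mono {a b : ℕ} (h : a ≤ b) : a * (a - 1) / 2 ≤ b * (b - 1) / 2 :=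
  Nat.div_le_div_right (Nat.mul_le_mul h (Nat.sub_le_sub_right h 1))

private theorem Chn_lo {m : ℕ} (i j : Fin m) : j.val * (j.val - 1) / 2 ≤ pos i j :=
  Nat.le_add_right _ _

private theorem Chn_hi {m : ℕ} {i j : Fin m} (h : i < j) {b : ℕ} (hb : j.val < b) :
    pos i j < b * (b - 1) / 2 := by
  have h1 : i.val < j.val := h
  have h2 := Chn_tri j.val
  have h3 : (j.val + 1) * (j.val + 1 - 1) / 2 ≤ b * (b - 1) / 2 := Chn_mono hb
  unfold pos
  omega

private theorem Chn_le {m : ℕ} {i j k l : Fin m} (hij : i < j) (hkl : k < l) :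
    pos k l ≤ pos i j ↔ l < j ∨ (l = j ∧ i ≤ k) := by
  have h1 : i.val < j.val := hij
  have h2 : k.val < l.val := hkl
  rcases lt_trichotomy l j with h | h | h
  · refine ⟨fun _ => Or.inl h, fun _ => ?_⟩
    exact (Chn_hi hkl (b := j.val) h).le.trans (Chn_lo i j)
  · subst h
    constructor
    · intro h3
      refine Or.inr ⟨rfl, ?_⟩
      unfold pos at h3
      change i.val ≤ k.val
      omega
    · rintro (h3 | ⟨_, h3⟩)
      · exact absurd h3 (lt_irrefl _)
      · have h4 : i.val ≤ k.val := h3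
        unfold pos
        omega
  · constructor
    · intro h3
      have h4 := (Chn_hi hij (b := l.val) h).trans_le (Chn_lo k l)
      omega
    · rintro (h3 | ⟨h3, _⟩)
      · exact absurd h3 (not_lt.2 h.le)
      · exact absurd h3 h.ne'

private theorem Chn_lt {m : ℕ} {i j k l : Fin m} (hij : i < j) (hkl : k < l) :
    pos k l < pos i j ↔ l < j ∨ (l = j ∧ i < k) := by
  rw [← not_le, Chn_le hkl hij]
  constructor
  · intro h
    rcases lt_trichotomy l j with h1 | h1 | h1
    · exact Or.inl h1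
    · refine Or.inr ⟨h1, ?_⟩
      by_contra h2
      exact h (Or.inr ⟨h1.symm, not_lt.1 h2⟩)
    · exact absurd (Or.inl h1) h
  · rintro (h1 | ⟨h1, h2⟩) (h3 | ⟨h3, h4⟩)
    · exact lt_asymm h1 h3
    · exact absurd h3 h1.ne'
    · exact absurd h1 h3.ne'
    · exact absurd h2 (not_lt.2 h4)

private theorem Chn_sur : ∀ m r : ℕ, r < m * (m - 1) / 2 → ∃ a b : ℕ, a < b ∧ b < m ∧
    b * (b - 1) / 2 + (b - 1 - a) = r := by
  intro m
  induction m with
  | zero => intro r hr; exact absurd hr (Nat.not_lt_zero r)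
  | succ n ih =>
    intro r hr
    rw [Chn_tri] at hr
    rcases lt_or_ge r (n * (n - 1) / 2) with h | h
    · obtain ⟨a, b, h1, h2, h3⟩ := ih r h
      exact ⟨a, b, h1, h2.trans (Nat.lt_succ_self n), h3⟩
    · refine ⟨n - 1 - (r - n * (n - 1) / 2), n, ?_, Nat.lt_succ_self n, ?_⟩
      · omega
      · omega

/-- The one parameter group. -/
private noncomputable def Chn_u {m : ℕ} {i j : Fin m} (h : i < j) (s : ℂ) : Bo m :=
  ⟨⟨Matrix.transvection i j s, Matrix.det_transvection_of_ne i j h.ne s⟩, by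
    change Upper (Matrix.transvection i j s)
    intro k l hkl
    rw [Matrix.transvection, Matrix.add_apply, Matrix.one_apply_ne hkl.ne', zero_add]
    refine Matrix.single_apply_of_ne _ _ _ _ _ ?_
    rintro ⟨h1, h2⟩
    subst h1
    subst h2
    exact lt_asymm h hkl⟩

private theorem Chn_mat {m : ℕ} {i j : Fin m} (h : i < j) (s : ℂ) :
    mB (Chn_u h s) = Matrix.transvection i j s := rfl

private theorem Chn_isU {m : ℕ} {i j : Fin m} (h : i < j) : IsU i j (Chn_u h) := by
  intro s k l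
  rw [Chn_mat, Matrix.transvection, Matrix.add_apply, Matrix.one_apply, Matrix.single_apply]
  congr 1
  refine if_congr ⟨fun h1 => ⟨h1.1.symm, h1.2.symm⟩, fun h1 => ⟨h1.1.symm, h1.2.symm⟩⟩ rfl rfl

private theorem Chn_ext {m : ℕ} {a b : Bo m} (h : mB a = mB b) : a = b :=
  Subtype.ext (Subtype.ext h)

private theorem Chn_mBone {m : ℕ} : mB (1 : Bo m) = 1 := mat_one

private theorem Chn_uu {m : ℕ} {i j : Fin m} (h : i < j) (s : ℂ) :
    Chn_u h s * Chn_u h (-s) = 1 := by
  refine Chn_ext ?_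
  rw [mB_mul, Chn_mat, Chn_mat, Matrix.transvection_mul_transvection_same i j h.ne, add_neg_cancel,
    Matrix.transvection_zero, Chn_mBone]

private theorem Chn_N {m : ℕ} {i j : Fin m} (h : i < j) (s : ℂ) : IsN (Chn_u h s) := by
  intro k
  rw [Chn_isU h s k k, if_pos rfl, if_neg, add_zero]
  rintro ⟨h1, h2⟩
  exact h.ne (h1.symm.trans h2)

private theorem Chn_mulN {m : ℕ} {a b : Bo m} (ha : IsN a) (hb : IsN b) : IsN (a * b) := by
  intro k
  rw [mB_diag_mul, ha k, hb k, one_mul]

private theorem Chn_up {m : ℕ} (b : Bo m) {k l : Fin m} (h : l < k) : mB b k l = 0 := b.2 k l h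

private theorem Chn_step {m : ℕ} {i j : Fin m} (h : i < j) :
    Step i j (Chn_u h) (Nr m (pos i j + 1)) (Nr m (pos i j)) where
  lt := h
  isU := Chn_isU h
  mem s := by
    refine ⟨Chn_N h s, fun k l hkl hp => ?_⟩
    rw [Chn_isU h s k l, if_neg hkl.ne, if_neg, add_zero]
    rintro ⟨h1, h2⟩
    subst h1
    subst h2
    exact lt_irrefl _ hp
  sub := fun n hn => ⟨hn.1, fun k l hkl hp => hn.2 k l hkl (hp.trans (Nat.lt_succ_self _))⟩
  gen n hn := by
    refine ⟨mB n i j, Chn_u h (-mB n i j) * n, Or.inr ⟨Chn_mulN (Chn_N h _) hn.1, ?_⟩, ?_⟩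
    · intro k l hkl hp
      have h1 := (Chn_le h hkl).1 (Nat.lt_succ_iff.1 hp)
      rw [mB_mul, Chn_mat]
      by_cases hk : k = i
      · subst hk
        rw [Matrix.transvection_mul_apply_same]
        rcases h1 with h1 | ⟨h1, _⟩
        · rw [hn.2 k l hkl ((Chn_lt h hkl).2 (Or.inl h1)), Chn_up n h1, mul_zero, add_zero]
        · subst h1
          rw [hn.1 l, mul_one, add_neg_cancel]
      · rw [Matrix.transvection_mul_apply_of_ne _ _ _ _ hk]
        refine hn.2 k l hkl ((Chn_lt h hkl).2 ?_)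
        rcases h1 with h1 | ⟨h1, h2⟩
        · exact Or.inl h1
        · exact Or.inr ⟨h1, lt_of_le_of_ne h2 (Ne.symm hk)⟩
    · rw [← mul_assoc, Chn_uu, one_mul]
  inv n hn b := by
    have h1 : mB (b * n) i i = mB b i i := by
      rw [mB_diag_mul, hn.1 i, mul_one]
    have h2 : mB (b * n) i j = mB b i j := by
      rw [mB_mul, Matrix.mul_apply]
      rw [Finset.sum_eq_single j]
      · rw [hn.1 j, mul_one]
      · intro k _ hk
        rcases lt_or_gt_of_ne hk with h3 | h3
        · rcases lt_or_ge k i with h4 | h4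
          · rw [Chn_up b h4, zero_mul]
          · rw [hn.2 k j h3 (Nat.lt_succ_iff.2 ((Chn_le h h3).2 (Or.inr ⟨rfl, h4⟩))), mul_zero]
        · rw [Chn_up n h3, mul_zero]
      · intro h3
        exact absurd (Finset.mem_univ j) h3
    rw [h1, h2]
  nor n hn s := by
    refine ⟨Chn_mulN (Chn_mulN (Chn_N h _) hn.1) (Chn_N h _), fun k l hkl hp => ?_⟩
    have h1 := (Chn_le h hkl).1 (Nat.lt_succ_iff.1 hp)
    have h0 := hn.2 k l hkl hp
    rw [mB_mul, mB_mul, Chn_mat, Chn_mat]
    rcases h1 with h1 | ⟨h1, h2⟩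
    · rw [Matrix.mul_transvection_apply_of_ne _ _ _ _ h1.ne]
      by_cases hk : k = i
      · subst hk
        rw [Matrix.transvection_mul_apply_same, h0, Chn_up n h1, mul_zero, add_zero]
      · rw [Matrix.transvection_mul_apply_of_ne _ _ _ _ hk, h0]
    · subst h1
      rw [Matrix.mul_transvection_apply_same]
      by_cases hk : k = i
      · subst hk
        rw [Matrix.transvection_mul_apply_same, Matrix.transvection_mul_apply_same, h0, hn.1 l,
          hn.1 k, Chn_up n hkl]
        ring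
      · have h3 : i < k := lt_of_le_of_ne h2 (Ne.symm hk)
        rw [Matrix.transvection_mul_apply_of_ne _ _ _ _ hk,
          Matrix.transvection_mul_apply_of_ne _ _ _ _ hk, h0, Chn_up n h3, mul_zero, add_zero]

theorem tChn : S_Chn := by
  intro m
  refine ⟨fun r hr => ?_, fun n hn => ?_, fun n => ?_⟩
  · obtain ⟨a, b, h1, h2, h3⟩ := Chn_sur m r hr
    have h : (⟨a, h1.trans h2⟩ : Fin m) < ⟨b, h2⟩ := h1
    refine ⟨⟨a, h1.trans h2⟩, ⟨b, h2⟩, Chn_u h, ?_⟩
    have h4 : pos (⟨a, h1.trans h2⟩ : Fin m) ⟨b, h2⟩ = r := h3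
    have h5 := Chn_step h
    rw [h4] at h5
    exact h5
  · refine Chn_ext ?_
    rw [Chn_mBone]
    refine Matrix.ext fun k l => ?_
    rcases lt_trichotomy k l with h | h | h
    · rw [hn.2 k l h (Chn_hi h l.2), Matrix.one_apply_ne h.ne]
    · subst h
      rw [hn.1 k, Matrix.one_apply_eq]
    · rw [Chn_up n h, Matrix.one_apply_ne h.ne']
  · exact ⟨fun h => h.1, fun h => ⟨h, fun _ _ _ hp => absurd hp (Nat.not_lt_zero _)⟩⟩

end PV
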