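import Pool.Agent.Lib.MP_3b3418_ag.PV.SpecJ

/-!
# Module Der: derivative and integral along a root subgroup
-/

set_option autoImplicit false

namespace PV

open MP3s Finset

/-! ### Expansions -/

private theorem Der_scal {X : Type} [Co X] {f : X × ℂ → ℂ} (hf : RegF f) :
    ∃ (n : ℕ) (c : ℕ → X → ℂ), (∀ k, RegF (c k)) ∧ (∀ k, n ≤ k → ∀ x, c k x = 0) ∧
      ∀ x r, f (x, r) = ∑ k ∈ range n, c k x * r ^ k := by
  obtain ⟨P, hP⟩ := hf
  have key : ∃ (n : ℕ) (c : ℕ → X → ℂ), (∀ k, RegF (c k)) ∧ (∀ k, n ≤ k → ∀ x, c k x = 0) ∧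
      ∀ (x : X) (r : ℂ), MvPolynomial.eval (Co.co ((x, r) : X × ℂ)) P =
        ∑ k ∈ range n, c k x * r ^ k := by
    clear hP
    induction P using MvPolynomial.induction_on with
    | C a =>
      refine ⟨1, fun k _ => if k = 0 then a else 0, fun k => RegF.const _, fun k hk x => ?_,
        fun x r => ?_⟩
      · exact if_neg (by omega)
      · rw [MvPolynomial.eval_C]
        simp
    | add p q hp hq =>
      obtain ⟨n, c, h1, h2, h3⟩ := hp
      obtain ⟨n', c', h1', h2', h3'⟩ := hq
      refine ⟨n + n', fun k x => c k x + c' k x, fun k => (h1 k).add (h1' k), fun k hk x => ?_,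
        fun x r => ?_⟩
      · change c k x + c' k x = 0
        rw [h2 k (by omega), h2' k (by omega), add_zero]
      · have e1 : ∑ k ∈ range n, c k x * r ^ k = ∑ k ∈ range (n + n'), c k x * r ^ k := by
          refine Finset.sum_subset (fun k hk => ?_) fun k _ hk => ?_
          · rw [mem_range] at hk ⊢
            omega
          · rw [mem_range, not_lt] at hk
            rw [h2 k hk x, zero_mul]
        have e2 : ∑ k ∈ range n', c' k x * r ^ k = ∑ k ∈ range (n + n'), c' k x * r ^ k := by
          refine Finset.sum_subset (fun k hk => ?_) fun k _ hk => ?_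
          · rw [mem_range] at hk ⊢
            omega
          · rw [mem_range, not_lt] at hk
            rw [h2' k hk x, zero_mul]
        rw [map_add, h3, h3', e1, e2, ← Finset.sum_add_distrib]
        exact Finset.sum_congr rfl fun k _ => by ring
    | mul_X p i hp =>
      obtain ⟨n, c, h1, h2, h3⟩ := hp
      rcases i with i | i
      · refine ⟨n, fun k x => c k x * Co.co x i, fun k => (h1 k).mul (RegF.co i), fun k hk x => ?_,
          fun x r => ?_⟩
        · change c k x * Co.co x i = 0
          rw [h2 k hk x, zero_mul]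
        · rw [map_mul, MvPolynomial.eval_X, h3, Finset.sum_mul]
          refine Finset.sum_congr rfl fun k _ => ?_
          change c k x * r ^ k * Co.co x i = c k x * Co.co x i * r ^ k
          ring
      · refine ⟨n + 1, fun k x => if k = 0 then 0 else c (k - 1) x, fun k => ?_, fun k hk x => ?_,
          fun x r => ?_⟩
        · by_cases hk : k = 0
          · simp only [if_pos hk]
            exact RegF.const _
          · simp only [if_neg hk]
            exact h1 _
        · change (if k = 0 then (0 : ℂ) else c (k - 1) x) = 0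
          rw [if_neg (by omega), h2 (k - 1) (by omega)]
        · rw [map_mul, MvPolynomial.eval_X, h3, Finset.sum_mul, Finset.sum_range_succ']
          simp only [Nat.add_eq_zero_iff, one_ne_zero, and_false, if_false, if_true, zero_mul,
            add_zero, Nat.add_sub_cancel]
          refine Finset.sum_congr rfl fun k _ => ?_
          change c k x * r ^ k * r = c k x * r ^ (k + 1)
          ring
  obtain ⟨n, c, h1, h2, h3⟩ := key
  exact ⟨n, c, h1, h2, fun x r => by rw [hP, h3]⟩

private theorem Der_vec {X V : Type} [Co X] [AddCommGroup V] [Module ℂ V] {f : X × ℂ → V}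
    (hf : Reg f) :
    ∃ (n : ℕ) (F : ℕ → X → V), (∀ k, Reg (F k)) ∧ (∀ k, n ≤ k → ∀ x, F k x = 0) ∧
      ∀ x r, f (x, r) = ∑ k ∈ range n, r ^ k • F k x := by
  obtain ⟨N, a, v, ha, h1⟩ := hf
  choose n c hc1 hc2 hc3 using fun k => Der_scal (ha k)
  refine ⟨∑ k, n k, fun l x => ∑ k, c k l x • v k, fun l => ?_, fun l hl x => ?_, fun x r => ?_⟩
  · exact Reg.sum _ fun k _ => Reg.smulConst (hc1 k l) (v k)
  · refine Finset.sum_eq_zero fun k _ => ?_
    have h2 : n k ≤ ∑ k, n k := Finset.single_le_sum (fun _ _ => Nat.zero_le _) (mem_univ k)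
    rw [hc2 k l (le_trans h2 hl) x, zero_smul]
  · rw [h1]
    simp only [Finset.smul_sum]
    rw [Finset.sum_comm]
    refine Finset.sum_congr rfl fun k _ => ?_
    have h2 : n k ≤ ∑ k, n k := Finset.single_le_sum (fun _ _ => Nat.zero_le _) (mem_univ k)
    have e1 : ∑ l ∈ range (n k), c k l x * r ^ l = ∑ l ∈ range (∑ k, n k), c k l x * r ^ l := by
      refine Finset.sum_subset (fun l hl => ?_) fun l _ hl => ?_
      · rw [mem_range] at hl ⊢
        omega
      · rw [mem_range, not_lt] at hl
        rw [hc2 k l hl x, zero_mul]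
    rw [hc3 k x r, e1, Finset.sum_smul]
    exact Finset.sum_congr rfl fun l _ => by rw [smul_smul, mul_comm]

/-! ### The one parameter group -/

private theorem Der_ext {m : ℕ} {a b : Bo m} (h : mB a = mB b) : a = b :=
  Subtype.ext (Subtype.ext h)

private theorem Der_tr {m : ℕ} {i j : Fin m} {u : ℂ → Bo m} (hu : IsU i j u) (s : ℂ) :
    mB (u s) = Matrix.transvection i j s := by
  ext k l
  rw [hu s k l, Matrix.transvection, Matrix.add_apply, Matrix.one_apply, Matrix.single_apply]
  congr 1
  by_cases h : k = i ∧ l = j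
  · rw [if_pos h, if_pos ⟨h.1.symm, h.2.symm⟩]
  · rw [if_neg h, if_neg fun h2 => h ⟨h2.1.symm, h2.2.symm⟩]

private theorem Der_add {m : ℕ} {i j : Fin m} {u : ℂ → Bo m} (hij : i < j) (hu : IsU i j u)
    (s r : ℂ) : u s * u r = u (s + r) := by
  refine Der_ext ?_
  rw [mB_mul, Der_tr hu, Der_tr hu, Der_tr hu, Matrix.transvection_mul_transvection_same _ _ hij.ne]

private theorem Der_zero {m : ℕ} {i j : Fin m} {u : ℂ → Bo m} (hu : IsU i j u) : u 0 = 1 := by
  refine Der_ext ?_
  rw [Der_tr hu, Matrix.transvection_zero]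
  exact mat_one.symm

private theorem Der_z {m : ℕ} {i j : Fin m} {u : ℂ → Bo m} (hij : i < j) (hu : IsU i j u)
    (x : Bo m) (r : ℂ) : mB (x * u r) i j / mB (x * u r) i i = mB x i j / mB x i i + r := by
  have h0 := mB_diag_ne x i
  rw [mB_mul, Der_tr hu, Matrix.mul_transvection_apply_same,
    Matrix.mul_transvection_apply_of_ne _ _ _ _ hij.ne]
  field_simp

private theorem Der_tu {m : ℕ} {i j : Fin m} {u : ℂ → Bo m} (hij : i < j) (hu : IsU i j u)
    {t : Bo m} (ht : IsT t) (s : ℂ) : t * u s = u (mB t i i / mB t j j * s) * t := by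
  refine Der_ext ?_
  have hd : mB t = Matrix.diagonal fun k => mB t k k := by
    ext k l
    by_cases h : k = l
    · rw [h, Matrix.diagonal_apply_eq]
    · rw [Matrix.diagonal_apply_ne _ h, ht k l h]
  have h0 := mB_diag_ne t j
  rw [mB_mul, mB_mul, hd]
  ext k l
  rw [Matrix.diagonal_mul, Matrix.mul_diagonal, hu s k l, hu _ k l, Matrix.diagonal_apply_eq,
    Matrix.diagonal_apply_eq]
  by_cases h : k = i ∧ l = j
  · rw [if_pos h, if_pos h, h.1, h.2, if_neg hij.ne]
    field_simp
    ring
  · rw [if_neg h, if_neg h]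
    by_cases h2 : k = l
    · rw [h2]
      ring
    · rw [if_neg h2]
      ring

private theorem Der_chr {m : ℕ} {i j : Fin m} (χ : Fin m → ℤ) (t : Bo m) :
    chr (χ + root i j) t = chr χ t * (mB t i i / mB t j j) := by
  unfold chr
  have h1 : ∀ k, mB t k k ^ ((χ + root i j) k) =
      mB t k k ^ χ k * ((if k = i then mB t k k else 1) / (if k = j then mB t k k else 1)) := by
    intro k
    rw [Pi.add_apply, zpow_add₀ (mB_diag_ne t k)]
    congr 1
    unfold root
    rw [zpow_sub₀ (mB_diag_ne t k)]
    congr 1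
    · split_ifs <;> simp
    · split_ifs <;> simp
  rw [Finset.prod_congr rfl fun k _ => h1 k, Finset.prod_mul_distrib, Finset.prod_div_distrib,
    Finset.prod_ite_eq' univ i fun k => mB t k k, Finset.prod_ite_eq' univ j fun k => mB t k k,
    if_pos (mem_univ i), if_pos (mem_univ j)]

private theorem Der_reg (hM : S_Mor) {m : ℕ} {V : Type} [AddCommGroup V] [Module ℂ V]
    {i j : Fin m} {u : ℂ → Bo m} (hu : IsU i j u) {f : Bo m → V} (hf : Reg f) :
    Reg fun p : Bo m × ℂ => f (p.1 * u p.2) := by
  have h1 : Mor u := by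
    intro q
    change RegF fun x => mB (u x) q.1 q.2
    have e : (fun x => mB (u x) q.1 q.2) = fun x : ℂ =>
        (if q.1 = q.2 then 1 else 0) + if q.1 = i ∧ q.2 = j then x else 0 :=
      funext fun x => hu x q.1 q.2
    rw [e]
    refine RegF.add (RegF.const _) ?_
    by_cases h : q.1 = i ∧ q.2 = j
    · simp only [if_pos h]
      exact RegF.co (X := ℂ) ()
    · simp only [if_neg h]
      exact RegF.const 0
  have h2 : Mor fun p : Bo m × ℂ => (p.1, u p.2) := Mor.pair Mor.fst (h1.comp Mor.snd)
  exact hf.comp ((hM m).2.2.1.comp h2)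

private theorem Der_sep {V : Type} [AddCommGroup V] [Module ℂ V] {v w : V}
    (h : ∀ ℓ : V →ₗ[ℂ] ℂ, ℓ v = ℓ w) : v = w := by
  rw [← sub_eq_zero]
  refine (Module.forall_dual_apply_eq_zero_iff ℂ (v - w)).1 fun ℓ => ?_
  rw [map_sub, h ℓ, sub_self]

/-- Two primitives differ by a constant. -/
private theorem Der_prim {H K h : ℂ → ℂ} (hH : ∀ s, HasDerivAt H (h s) s)
    (hK : ∀ s, HasDerivAt K (h s) s) (a b : ℂ) : H a - H b = K a - K b := by
  have h1 : ∀ s, HasDerivAt (fun s => H s - K s) 0 s := by
    intro s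
    have := (hH s).sub (hK s)
    rw [sub_self] at this
    exact this
  have h2 := is_const_of_deriv_eq_zero (fun s => (h1 s).differentiableAt)
    (fun s => (h1 s).deriv) a b
  linear_combination h2

theorem tDer : S_Mor → S_Der := by
  intro hM m V _ _ i j u hij hu
  refine ⟨fun f hf => ?_, fun S' S χ hS g hg => ?_⟩
  · obtain ⟨n, F, hF1, hF2, hF3⟩ := Der_vec (Der_reg hM hu hf)
    refine ⟨F 1, hF1 1, fun ℓ x s => ?_⟩
    have e : (fun r => ℓ (f (x * u r))) =
        fun r => ∑ k ∈ range n, (r - s) ^ k * ℓ (F k (x * u s)) := by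
      funext r
      have h1 : x * u r = x * u s * u (r - s) := by
        rw [mul_assoc, Der_add hij hu]
        congr 2
        ring
      have h2 := hF3 (x * u s) (r - s)
      rw [h1, h2, map_sum]
      exact Finset.sum_congr rfl fun k _ => by rw [map_smul, smul_eq_mul]
    rw [e]
    have hd : HasDerivAt (fun r => ∑ k ∈ range n, (r - s) ^ k * ℓ (F k (x * u s)))
        (∑ k ∈ range n, ((k : ℂ) * (s - s) ^ (k - 1) * 1) * ℓ (F k (x * u s))) s := by
      refine HasDerivAt.fun_sum fun k _ => ?_
      exact (((hasDerivAt_id s).sub_const s).pow k).mul_const _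
    have e2 : ∑ k ∈ range n, ((k : ℂ) * (s - s) ^ (k - 1) * 1) * ℓ (F k (x * u s)) =
        ℓ (F 1 (x * u s)) := by
      rw [Finset.sum_eq_single 1]
      · simp
      · intro k _ hk
        by_cases h0 : k = 0
        · rw [h0]
          simp
        · rw [sub_self, zero_pow (by omega)]
          ring
      · intro h
        rw [mem_range, not_lt] at h
        rw [hF2 1 h, map_zero, mul_zero]
    rw [e2] at hd
    exact hd
  · obtain ⟨n, G, hG1, hG2, hG3⟩ := Der_vec (Der_reg hM hu hg.1)
    have hG3' : ∀ x r, g (x * u r) = ∑ k ∈ range n, r ^ k • G k x := hG3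
    -- the coordinate
    set z : Bo m → ℂ := fun x => mB x i j / mB x i i with hz
    have hzr : RegF z := by
      have h1 : RegF fun x : Bo m => mB x⁻¹ i i := (hM m).2.2.2.1 (i, i)
      have h2 : RegF fun x : Bo m => mB x i j := RegF.co (X := Bo m) (i, j)
      have h3 := h2.mul h1
      have e : (fun x : Bo m => mB x i j * mB x⁻¹ i i) = z := by
        funext x
        have h4 : mB x i i * mB x⁻¹ i i = 1 := by
          rw [← mB_diag_mul, mul_inv_cancel]
          exact Matrix.one_apply_eq i
        change mB x i j * mB x⁻¹ i i = mB x i j / mB x i i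
        rw [div_eq_mul_inv, ← eq_inv_of_mul_eq_one_right h4]
      rw [e] at h3
      exact h3
    set f : Bo m → V := fun x =>
      ∑ k ∈ range n, (-((-1) ^ (k + 1) * z x ^ (k + 1) * (1 / ((k : ℂ) + 1)))) • G k x with hf
    have hfr : Reg f := by
      refine Reg.sum _ fun k _ => (hG1 k).smul ?_
      exact (((RegF.const _).mul (hzr.pow _)).mul (RegF.const _)).neg
    -- primitives
    have prim : ∀ (ℓ : V →ₗ[ℂ] ℂ) (x : Bo m), ∃ H : ℂ → ℂ,
        (∀ s, HasDerivAt H (ℓ (g (x * u s))) s) ∧ ℓ (f x) = H 0 - H (-z x) := by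
      intro ℓ x
      refine ⟨fun s => ∑ k ∈ range n, s ^ (k + 1) * (1 / ((k : ℂ) + 1)) * ℓ (G k x), fun s => ?_,
        ?_⟩
      · have hd : HasDerivAt (fun s : ℂ => ∑ k ∈ range n, s ^ (k + 1) * (1 / ((k : ℂ) + 1)) *
            ℓ (G k x)) (∑ k ∈ range n, (((k + 1 : ℕ) : ℂ) * s ^ (k + 1 - 1)) *
            (1 / ((k : ℂ) + 1)) * ℓ (G k x)) s := by
          refine HasDerivAt.fun_sum fun k _ => ?_
          exact ((hasDerivAt_pow (k + 1) s).mul_const _).mul_const _
        have e : ∑ k ∈ range n, (((k + 1 : ℕ) : ℂ) * s ^ (k + 1 - 1)) *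
            (1 / ((k : ℂ) + 1)) * ℓ (G k x) = ℓ (g (x * u s)) := by
          rw [hG3', map_sum]
          refine Finset.sum_congr rfl fun k _ => ?_
          have hk : ((k : ℂ) + 1) ≠ 0 := Nat.cast_add_one_ne_zero k
          rw [map_smul, smul_eq_mul, Nat.add_sub_cancel]
          push_cast
          field_simp
        rw [e] at hd
        exact hd
      · simp only [hf, map_sum, map_smul, smul_eq_mul]
        rw [← Finset.sum_sub_distrib]
        refine Finset.sum_congr rfl fun k _ => ?_
        rw [zero_pow (Nat.succ_ne_zero k), neg_pow (z x)]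
        ring
    have char : ∀ (ℓ : V →ₗ[ℂ] ℂ) (x : Bo m) (H : ℂ → ℂ),
        (∀ s, HasDerivAt H (ℓ (g (x * u s))) s) → ℓ (f x) = H 0 - H (-z x) := by
      intro ℓ x H hH
      obtain ⟨K, hK, hK2⟩ := prim ℓ x
      rw [hK2]
      exact Der_prim hK hH _ _
    refine ⟨f, ⟨hfr, fun b n' hn => ?_, fun b t ht => ?_⟩, fun ℓ x s => ?_⟩
    · refine Der_sep fun ℓ => ?_
      obtain ⟨H, hH, hH2⟩ := prim ℓ b
      have e : z (b * n') = z b := hS.inv n' hn b
      rw [char ℓ (b * n') H, hH2, e]
      intro s
      have h1 : b * n' * u s = b * u s * (u (-s) * n' * u s) := by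
        have h2 : u s * u (-s) = 1 := by
          rw [Der_add hij hu, add_neg_cancel, Der_zero hu]
        calc b * n' * u s = b * (u s * u (-s)) * n' * u s := by rw [h2, mul_one]
          _ = b * u s * (u (-s) * n' * u s) := by simp only [mul_assoc]
      rw [h1, hg.2.1 (b * u s) _ (hS.nor n' hn s)]
      exact hH s
    · refine Der_sep fun ℓ => ?_
      obtain ⟨H, hH, hH2⟩ := prim ℓ b
      set α : ℂ := mB t i i / mB t j j with hα
      have hα0 : α ≠ 0 := div_ne_zero (mB_diag_ne t i) (mB_diag_ne t j)
      have e : z (b * t) = α⁻¹ * z b := by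
        have h1 : mB (b * t) i j = mB b i j * mB t j j := by
          rw [mB_mul, Matrix.mul_apply]
          refine (Finset.sum_eq_single j (fun k _ hk => ?_) fun h => absurd (mem_univ j) h)
          rw [ht k j hk, mul_zero]
        have h2 := mB_diag_ne b i
        have h3 := mB_diag_ne t i
        have h4 := mB_diag_ne t j
        rw [hz, hα]
        simp only
        rw [h1, mB_diag_mul]
        field_simp
      have hK : ∀ s, HasDerivAt (fun s => chr (χ + root i j) t * α⁻¹ * H (α * s))
          (ℓ (g (b * t * u s))) s := by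
        intro s
        have h1 : b * t * u s = b * u (α * s) * t := by
          rw [mul_assoc, Der_tu hij hu ht, ← mul_assoc]
        have h2 : HasDerivAt (fun s => H (α * s)) (ℓ (g (b * u (α * s))) * (α * 1)) s :=
          (hH (α * s)).comp s ((hasDerivAt_id s).const_mul α)
        have h3 := h2.const_mul (chr (χ + root i j) t * α⁻¹)
        have h4 : chr (χ + root i j) t * α⁻¹ * (ℓ (g (b * u (α * s))) * (α * 1)) =
            ℓ (g (b * t * u s)) := by
          rw [h1, hg.2.2 _ t ht, map_smul, smul_eq_mul]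
          field_simp
        rw [h4] at h3
        exact h3
      rw [char ℓ (b * t) _ hK, map_smul, smul_eq_mul, hH2, e, Der_chr]
      have h5 : α * -(α⁻¹ * z b) = -z b := by
        field_simp
      rw [h5, mul_zero, ← hα]
      field_simp
    · obtain ⟨H, hH, _⟩ := prim ℓ x
      have e : (fun r => ℓ (f (x * u r))) = fun r => H r - H (-z x) := by
        funext r
        have h1 : ∀ s, HasDerivAt (fun s => H (r + s)) (ℓ (g (x * u r * u s))) s := by
          intro s
          have h2 : x * u r * u s = x * u (r + s) := by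
            rw [mul_assoc, Der_add hij hu]
          rw [h2]
          exact HasDerivAt.comp_const_add r s (hH (r + s))
        rw [char ℓ (x * u r) _ h1]
        have h3 : z (x * u r) = z x + r := Der_z hij hu x r
        rw [h3, add_zero]
        congr 2
        ring
      rw [e]
      exact (hH s).sub_const _

end PV
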