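import Pool.Agent.Lib.MP_3b3418_ag.PV.SpecJ

/-!
# Emb: the block embedding of `SL_2` into `SL_m`

The block matrix is `1 + U (g - 1) Uᵀ` where `U` is the `m × 2` matrix with columns `e_i`, `e_j`;
`Uᵀ U = 1`, so this is multiplicative in `g` and has determinant `det g`.
-/

set_option autoImplicit false

namespace PV

open MP3s

/-- The matrix with columns `e_i`, `e_j`. -/
private def Emb_U {m : ℕ} (i j : Fin m) : Matrix (Fin m) (Fin 2) ℂ :=
  fun k a => if k = (if a = 0 then i else j) then 1 else 0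

private theorem Emb_UU {m : ℕ} {i j : Fin m} (hij : i ≠ j) :
    (Emb_U i j).transpose * Emb_U i j = 1 := by
  ext a b
  rw [Matrix.mul_apply]
  simp only [Matrix.transpose_apply, Emb_U]
  fin_cases a <;> fin_cases b <;> simp [hij, hij.symm]

/-- The block matrix. -/
private def Emb_B {m : ℕ} (i j : Fin m) (g : Matrix (Fin 2) (Fin 2) ℂ) : Gl m :=
  1 + Emb_U i j * ((g - 1) * (Emb_U i j).transpose)

private theorem Emb_one {m : ℕ} (i j : Fin m) : Emb_B i j 1 = 1 := by
  unfold Emb_B
  rw [sub_self, Matrix.zero_mul, Matrix.mul_zero, add_zero]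

private theorem Emb_mul {m : ℕ} {i j : Fin m} (hij : i ≠ j) (g h : Matrix (Fin 2) (Fin 2) ℂ) :
    Emb_B i j (g * h) = Emb_B i j g * Emb_B i j h := by
  unfold Emb_B
  have h1 : Emb_U i j * ((g - 1) * (Emb_U i j).transpose) *
      (Emb_U i j * ((h - 1) * (Emb_U i j).transpose)) =
      Emb_U i j * ((g - 1) * ((h - 1) * (Emb_U i j).transpose)) := by
    calc Emb_U i j * ((g - 1) * (Emb_U i j).transpose) *
        (Emb_U i j * ((h - 1) * (Emb_U i j).transpose)) =
        Emb_U i j * ((g - 1) * (((Emb_U i j).transpose * Emb_U i j) *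
          ((h - 1) * (Emb_U i j).transpose))) := by simp only [Matrix.mul_assoc]
      _ = _ := by rw [Emb_UU hij, Matrix.one_mul]
  have h2 : g * h - 1 = (g - 1) + (h - 1) + (g - 1) * (h - 1) := by
    rw [Matrix.sub_mul, Matrix.mul_sub, Matrix.mul_one, Matrix.one_mul]
    abel
  rw [Matrix.add_mul, Matrix.one_mul, Matrix.mul_add, Matrix.mul_one, h1, h2]
  rw [Matrix.add_mul, Matrix.add_mul, Matrix.mul_add, Matrix.mul_add, Matrix.mul_assoc (g - 1)]
  abel

private theorem Emb_det {m : ℕ} {i j : Fin m} (hij : i ≠ j) (g : Matrix (Fin 2) (Fin 2) ℂ) :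
    (Emb_B i j g).det = g.det := by
  unfold Emb_B
  rw [Matrix.det_one_add_mul_comm, Matrix.mul_assoc, Emb_UU hij, Matrix.mul_one]
  congr 1
  abel

private theorem Emb_apply {m : ℕ} {i j : Fin m} (hij : i ≠ j) (g : Matrix (Fin 2) (Fin 2) ℂ)
    (k l : Fin m) : Emb_B i j g k l =
      if k = i then (if l = i then g 0 0 else if l = j then g 0 1 else 0)
      else if k = j then (if l = i then g 1 0 else if l = j then g 1 1 else 0)
      else if k = l then 1 else 0 := by
  unfold Emb_B
  rw [Matrix.add_apply, Matrix.mul_apply, Fin.sum_univ_two, Matrix.mul_apply, Matrix.mul_apply,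
    Fin.sum_univ_two, Fin.sum_univ_two]
  simp only [Matrix.transpose_apply, Emb_U, Matrix.sub_apply, Matrix.one_apply]
  by_cases hki : k = i
  · subst hki
    by_cases hlk : l = k
    · subst hlk
      simp [hij]
    · by_cases hlj : l = j
      · subst hlj
        simp [hij, hlk]
      · simp [hij, hlk, hlj, Ne.symm hlk]
  · by_cases hkj : k = j
    · subst hkj
      by_cases hli : l = i
      · subst hli
        simp [hki, Ne.symm hki]
      · by_cases hlk : l = k
        · subst hlk
          simp [hki]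
        · simp [hki, hli, hlk, Ne.symm hlk]
    · simp [hki, hkj]

/-- The block embedding. -/
private def Emb_e {m : ℕ} {i j : Fin m} (hij : i ≠ j) : SLm 2 →* SLm m where
  toFun g := ⟨Emb_B i j (mat g), by rw [Emb_det hij]; exact g.2⟩
  map_one' := by
    refine Subtype.ext ?_
    change Emb_B i j (mat 1) = 1
    rw [mat_one]
    exact Emb_one i j
  map_mul' g h := by
    refine Subtype.ext ?_
    change Emb_B i j (mat (g * h)) = Emb_B i j (mat g) * Emb_B i j (mat h)
    rw [mat_mul]
    exact Emb_mul hij _ _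

private theorem Emb_blk {m : ℕ} {i j : Fin m} (hij : i ≠ j) (g : SLm 2) :
    Blk i j g (Emb_e hij g) := fun k l => Emb_apply hij (mat g) k l

private theorem Emb_mor {m : ℕ} {i j : Fin m} (hij : i ≠ j) : Mor (Emb_e hij) := by
  intro q
  have h1 : (fun g : SLm 2 => Co.co (Emb_e hij g) q) = fun g : SLm 2 =>
      if q.1 = i then (if q.2 = i then mat g 0 0 else if q.2 = j then mat g 0 1 else 0)
      else if q.1 = j then (if q.2 = i then mat g 1 0 else if q.2 = j then mat g 1 1 else 0)
      else if q.1 = q.2 then 1 else 0 := funext fun g => Emb_blk hij g q.1 q.2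
  rw [h1]
  have h2 : ∀ a b : Fin 2, RegF fun g : SLm 2 => mat g a b := fun a b =>
    RegF.co (X := SLm 2) (a, b)
  split_ifs
  · exact h2 0 0
  · exact h2 0 1
  · exact RegF.const 0
  · exact h2 1 0
  · exact h2 1 1
  · exact RegF.const 0
  · exact RegF.const 1
  · exact RegF.const 0

private theorem Emb_up {m : ℕ} {i j : Fin m} (h : i < j) (g : SLm 2) (hg : mat g 1 0 = 0) :
    Upper (mat (Emb_e h.ne g)) := by
  intro k l hlk
  rw [Emb_blk h.ne g k l]
  by_cases hki : k = i
  · subst hki
    rw [if_pos rfl, if_neg hlk.ne, if_neg (hlk.trans h).ne]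
  · rw [if_neg hki]
    by_cases hkj : k = j
    · subst hkj
      rw [if_pos rfl, if_neg hlk.ne, hg]
      exact ite_self 0
    · rw [if_neg hkj, if_neg hlk.ne']

/-- The matrix `(1 s; 0 1)`. -/
private def Emb_g (s : ℂ) : SLm 2 := ⟨!![1, s; 0, 1], by simp [Matrix.det_fin_two]⟩

theorem tEmb : S_Emb := by
  intro m i j hij
  have hlt : i < j := Fin.lt_def.2 (by omega)
  have hU : ∀ s : ℂ, mat (Emb_g s) 1 0 = 0 := fun s => rfl
  let u : ℂ → Bo m := fun s => ⟨Emb_e hlt.ne (Emb_g s), Emb_up hlt _ (hU s)⟩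
  have hu : IsU i j u := by
    intro s k l
    have h1 := Emb_blk hlt.ne (Emb_g s) k l
    have h00 : mat (Emb_g s) 0 0 = 1 := rfl
    have h01 : mat (Emb_g s) 0 1 = s := rfl
    have h10 : mat (Emb_g s) 1 0 = 0 := rfl
    have h11 : mat (Emb_g s) 1 1 = 1 := rfl
    rw [h00, h01, h10, h11] at h1
    change mat (Emb_e hlt.ne (Emb_g s)) k l = _
    rw [h1]
    by_cases hki : k = i
    · subst hki
      by_cases hlk : l = k
      · subst hlk
        simp [hlt.ne]
      · by_cases hlj : l = j
        · subst hlj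
          simp [hlk, hlt.ne]
        · simp [hlk, hlj, Ne.symm hlk]
    · by_cases hkj : k = j
      · subst hkj
        by_cases hli : l = i
        · subst hli
          simp [hki]
        · by_cases hlk : l = k
          · subst hlk
            simp [hki]
          · simp [hki, hli, hlk, Ne.symm hlk]
      · simp [hki, hkj]
  refine ⟨⟨Emb_e hlt.ne, Emb_blk hlt.ne, Emb_mor hlt.ne⟩, fun g hg =>
    ⟨⟨Emb_e hlt.ne g, Emb_up hlt g hg⟩, Emb_blk hlt.ne g⟩, ⟨u, hu, ?_⟩, ?_⟩
  · intro q
    have h1 : (fun s : ℂ => Co.co (u s) q) = fun s : ℂ =>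
        (if q.1 = q.2 then 1 else 0) + if q.1 = i ∧ q.2 = j then s else 0 :=
      funext fun s => hu s q.1 q.2
    rw [h1]
    refine RegF.add (RegF.const _) ?_
    by_cases h : q.1 = i ∧ q.2 = j
    · simp only [if_pos h]
      exact RegF.co (X := ℂ) ()
    · simp only [if_neg h]
      exact RegF.const 0
  · intro g x y hx hy
    refine Subtype.ext (Matrix.ext fun k l => ?_)
    exact (hx k l).trans (hy k l).symm

end PV
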