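import Pool.Agent.Lib.MP_3b3418_ag.PV.SpecJ

/-!
# HRep: coinduced modules are rational
-/

set_option autoImplicit false

namespace PV

open MP3s

/-- Left translation is a morphism. -/
private theorem HRep_left {m : ℕ} (hM : S_Mor) (b : Bo m) : Mor fun x : Bo m => b * x := by
  have h1 : Mor fun x : Bo m => (b, x) :=
    Mor.pair (X := Bo m) (Y := Bo m) (Z := Bo m) (Mor.const b) Mor.id
  have h2 := Mor.comp (f := fun p : Bo m × Bo m => p.1 * p.2) (hM m).2.2.1 h1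
  exact h2

/-- The map `(b, x) ↦ b⁻¹ x` is a morphism. -/
private theorem HRep_two {m : ℕ} (hM : S_Mor) : Mor fun p : Bo m × Bo m => p.1⁻¹ * p.2 := by
  have h0 : Mor fun p : Bo m × Bo m => p.1 := Mor.fst
  have h1 := Mor.comp (f := fun g : Bo m => g⁻¹) (hM m).2.2.2.1 h0
  have h2 : Mor fun p : Bo m × Bo m => p.2 := Mor.snd
  have h3 := Mor.pair h1 h2
  have h4 := Mor.comp (f := fun p : Bo m × Bo m => p.1 * p.2) (hM m).2.2.1 h3
  exact h4

/-- The translated function lies in the module. -/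
private theorem HRep_mem {m : ℕ} (hM : S_Mor) {V : Type} [AddCommGroup V] [Module ℂ V]
    (ρ : Representation ℂ (Bo m) V) (S : Set (Bo m)) (χ : Fin m → ℤ) (b : Bo m)
    (f : Bo m → V) (hf : f ∈ Hs V S χ) : (fun x => ρ b (f (b⁻¹ * x))) ∈ Hs V S χ := by
  obtain ⟨h1, h2, h3⟩ := hf
  refine ⟨(h1.comp (HRep_left hM b⁻¹)).map (ρ b), fun x n hn => ?_, fun x t ht => ?_⟩
  · change ρ b (f (b⁻¹ * (x * n))) = ρ b (f (b⁻¹ * x))
    rw [← mul_assoc, h2 (b⁻¹ * x) n hn]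
  · change ρ b (f (b⁻¹ * (x * t))) = chr χ t • ρ b (f (b⁻¹ * x))
    rw [← mul_assoc, h3 (b⁻¹ * x) t ht, map_smul]

/-- The operator of `b`. -/
private noncomputable def HRep_op {m : ℕ} (hM : S_Mor) {V : Type} [AddCommGroup V] [Module ℂ V]
    (ρ : Representation ℂ (Bo m) V) (S : Set (Bo m)) (χ : Fin m → ℤ) (b : Bo m) :
    Hs V S χ →ₗ[ℂ] Hs V S χ where
  toFun f := ⟨fun x => ρ b (f.1 (b⁻¹ * x)), HRep_mem hM ρ S χ b f.1 f.2⟩
  map_add' _ _ := Subtype.ext (funext fun _ => map_add (ρ b) _ _)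
  map_smul' _ _ := Subtype.ext (funext fun _ => map_smul (ρ b) _ _)

/-- The representation. -/
private noncomputable def HRep_rep {m : ℕ} (hM : S_Mor) {V : Type} [AddCommGroup V] [Module ℂ V]
    (ρ : Representation ℂ (Bo m) V) (S : Set (Bo m)) (χ : Fin m → ℤ) :
    Representation ℂ (Bo m) (Hs V S χ) where
  toFun b := HRep_op hM ρ S χ b
  map_one' := by
    refine LinearMap.ext fun f => Subtype.ext (funext fun x => ?_)
    change ρ 1 (f.1 (1⁻¹ * x)) = f.1 x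
    rw [inv_one, one_mul, map_one]
    rfl
  map_mul' a b := by
    refine LinearMap.ext fun f => Subtype.ext (funext fun x => ?_)
    change ρ (a * b) (f.1 ((a * b)⁻¹ * x)) = ρ a (ρ b (f.1 (b⁻¹ * (a⁻¹ * x))))
    rw [mul_inv_rev, mul_assoc, map_mul]
    rfl

/-- **HRep.** -/
theorem tHRep : S_Mor → S_HRep := by
  intro hM m V _ _ ρ hρ S χ
  refine ⟨⟨HRep_rep hM ρ S χ, fun b f x => rfl⟩, fun θ hθ f => ?_⟩
  have h1 : Reg fun p : Bo m × Bo m => ρ p.1 (f.1 (p.1⁻¹ * p.2)) :=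
    Reg.act (θ := fun b => ρ b) hρ Mor.fst (f.2.1.comp (HRep_two hM))
  have h2 : Reg fun b : Bo m => (fun x => ρ b (f.1 (b⁻¹ * x)) : Bo m → V) := h1.curry
  have h3 : ∀ b : Bo m, (fun x => ρ b (f.1 (b⁻¹ * x))) ∈ Hs V S χ :=
    fun b => HRep_mem hM ρ S χ b f.1 f.2
  have h4 := h2.codRestrict (Hs V S χ) h3
  have h5 : (fun b : Bo m => (⟨fun x => ρ b (f.1 (b⁻¹ * x)), h3 b⟩ : Hs V S χ)) =
      fun b => θ b f :=
    funext fun b => Subtype.ext (funext fun x => (hθ b f x).symm)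
  rw [h5] at h4
  exact h4

end PV
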