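import Pool.Agent.Lib.MP_3b3418_ag.PV.SpecJ

/-!
# The vanishing lemma
-/

set_option autoImplicit false

namespace PV

open MP3s

/-- The representation on the quotient by an invariant subspace. -/
private noncomputable def L_quo {H A : Type} [Group H] [AddCommGroup A] [Module ℂ A]
    (ρ : Representation ℂ H A) (U : Submodule ℂ A) (h : ∀ g, U ≤ U.comap (ρ g)) :
    Representation ℂ H (A ⧸ U) where
  toFun g := U.mapQ U (ρ g) (h g)
  map_one' := by
    refine LinearMap.ext fun x => ?_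
    obtain ⟨a, rfl⟩ := U.mkQ_surjective x
    change U.mkQ (ρ 1 a) = U.mkQ a
    rw [map_one]
    rfl
  map_mul' g g' := by
    refine LinearMap.ext fun x => ?_
    obtain ⟨a, rfl⟩ := U.mkQ_surjective x
    change U.mkQ (ρ (g * g') a) = U.mkQ (ρ g (ρ g' a))
    rw [map_mul]
    rfl

private theorem L_quo_mk {H A : Type} [Group H] [AddCommGroup A] [Module ℂ A]
    (ρ : Representation ℂ H A) (U : Submodule ℂ A) (h : ∀ g, U ≤ U.comap (ρ g)) (g : H) (a : A) :
    L_quo ρ U h g (U.mkQ a) = U.mkQ (ρ g a) := rfl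

private theorem L_rat {H A : Type} [Group H] [Co H] [AddCommGroup A] [Module ℂ A]
    (ρ : Representation ℂ H A) (U : Submodule ℂ A) (h : ∀ g, U ≤ U.comap (ρ g)) (hρ : Rat ρ) :
    Rat (L_quo ρ U h) := by
  intro v
  obtain ⟨a, rfl⟩ := U.mkQ_surjective v
  exact (hρ a).map U.mkQ

private theorem L_alpha {m : ℕ} {i j : Fin m} {c : ℤ} {A : Type} [AddCommGroup A] [Module ℂ A]
    {ρ : Representation ℂ (Bo m) A} {σ : Representation ℂ (SLm 2) A} (hA : AlphaMod i j c ρ σ)
    (U : Submodule ℂ A) (h : ∀ g, U ≤ U.comap (ρ g)) (h' : ∀ g, U ≤ U.comap (σ g)) :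
    AlphaMod i j c (L_quo ρ U h) (L_quo σ U h') := by
  refine ⟨L_rat ρ U h hA.rat, L_rat σ U h' hA.rat2, fun g b hg hb => ?_⟩
  refine LinearMap.ext fun x => ?_
  obtain ⟨a, rfl⟩ := U.mkQ_surjective x
  rw [L_quo_mk, hA.agree g b hg hb]
  rfl

theorem tL : S_L0 → S_AM → S_VA → S_LA → S_VZ → S_HRep → S_Emb → S_L := by
  intro hL0 hAM hVA hLA hVZ hH hEmb m i j hij V _ _ ρ σ hα q
  induction q generalizing V with
  | zero => exact hL0 m i j hij V ρ σ hα
  | succ q ih =>
    obtain ⟨-, -, ⟨u, hu, -⟩, -⟩ := hEmb m i j hij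
    obtain ⟨A, _, _, ρA, σA, ι, hA, hinj, hι, hισ, he⟩ := hAM m i j hij 1 V ρ σ hα u hu
    obtain ⟨⟨θ, hθ⟩, -⟩ := hH m V ρ hα.rat (Set.range u) 0
    obtain ⟨e, hecom⟩ := he θ hθ
    have h1 : Van θ (q + 1) := hVA m i j hij V ρ σ hα u hu θ hθ q
    have h2 : Van ρA (q + 1) := by
      refine (hVZ m _ A θ ρA).2.1 e.symm LinearMap.id LinearMap.id (q + 1) (fun b v => ?_)
        (fun v => rfl) h1
      apply e.injective
      rw [hecom, LinearEquiv.apply_symm_apply, LinearEquiv.apply_symm_apply]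
    have hU : ∀ b, LinearMap.range ι ≤ (LinearMap.range ι).comap (ρA b) := by
      rintro b _ ⟨v, rfl⟩
      exact ⟨ρ b v, hι b v⟩
    have hU' : ∀ g, LinearMap.range ι ≤ (LinearMap.range ι).comap (σA g) := by
      rintro g _ ⟨v, rfl⟩
      exact ⟨σ g v, hισ g v⟩
    have h3 : Van (L_quo ρA (LinearMap.range ι) hU) q :=
      ih _ (L_quo ρA (LinearMap.range ι) hU) (L_quo σA (LinearMap.range ι) hU')
        (L_alpha hA (LinearMap.range ι) hU hU')
    have hS : Ses ρ ρA (L_quo ρA (LinearMap.range ι) hU) ι (LinearMap.range ι).mkQ :=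
      { inj := hinj
        surj := (LinearMap.range ι).mkQ_surjective
        ex := fun v => by
          rw [Submodule.mkQ_apply, Submodule.Quotient.mk_eq_zero, LinearMap.mem_range]
        eι := hι
        eπ := fun b v => rfl }
    exact hLA m V A _ ρ ρA _ ι _ LinearMap.id LinearMap.id LinearMap.id q hA.rat hS
      ⟨fun _ => rfl, fun _ => rfl⟩ (fun _ _ => rfl) h3 h2

end PV
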