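import Pool.Agent.Lib.MP_3b3418_ag.PV.SpecJ

/-!
# The vanishing lemma, degree 0
-/

set_option autoImplicit false

namespace PV

open MP3s

theorem tL0 : S_SLa → S_Inv → S_Emb → S_L0 := by
  intro hS hI hE m i j hij V _ _ ρ σ hA
  refine (hI m V ρ LinearMap.id).2 fun v hv => ?_
  change v = 0
  refine hS V σ hA.rat2 v fun g hg => ?_
  obtain ⟨b, hb⟩ := (hE m i j hij).2.1 g hg
  have h1 : ρ b v = mat g 0 0 • σ g v := by
    rw [hA.agree g b hg hb, zpow_one]
    rfl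
  rw [hv b] at h1
  by_cases h0 : mat g 0 0 = 0
  · rw [h0, zero_smul] at h1
    rw [h1, map_zero, smul_zero]
  · have h2 : (mat g 0 0)⁻¹ • v = (mat g 0 0)⁻¹ • (mat g 0 0 • σ g v) := by rw [← h1]
    rw [h2, smul_smul, inv_mul_cancel₀ h0, one_smul]

end PV
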