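import Pool.Agent.Lib.MP_3b3418_ag.PV.SpecJ

/-!
# PV, module SLa: `SL_2` has no highest weight vector of weight `-1`
-/

set_option autoImplicit false

namespace PV

open MP3s

private def SLa_mk (a b c d : ℂ) (h : a * d - b * c = 1) : SLm 2 :=
  ⟨!![a, b; c, d], by rw [Matrix.det_fin_two_of]; exact h⟩

private theorem SLa_mk_mat (a b c d : ℂ) (h : a * d - b * c = 1) :
    mat (SLa_mk a b c d h) = !![a, b; c, d] := rfl

private theorem SLa_poly (p q : Polynomial ℂ) (h : ∀ c : ℂ, c ≠ 0 → q.eval c = c⁻¹ * p.eval c⁻¹) :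
    p = 0 := by
  have h1 : Polynomial.X ^ (p.natDegree + 2) * q = Polynomial.X * p.reverse := by
    refine Polynomial.funext fun c => ?_
    rw [Polynomial.eval_mul, Polynomial.eval_mul, Polynomial.eval_pow, Polynomial.eval_X]
    by_cases hc : c = 0
    · rw [hc, zero_pow (by omega), zero_mul, zero_mul]
    · let _ : Invertible c⁻¹ := invertibleOfNonzero (inv_ne_zero hc)
      have h2 := Polynomial.eval₂_reverse_mul_pow (RingHom.id ℂ) c⁻¹ p
      have h3 : (⅟(c⁻¹) : ℂ) = c := by rw [invOf_eq_inv, inv_inv]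
      rw [h3] at h2
      change Polynomial.eval c p.reverse * c⁻¹ ^ p.natDegree = Polynomial.eval c⁻¹ p at h2
      rw [h c hc, ← h2, pow_add, inv_pow]
      have h4 : c ^ p.natDegree ≠ 0 := pow_ne_zero _ hc
      field_simp
  have h5 : q = 0 := by
    by_contra hq
    have h6 : (Polynomial.X ^ (p.natDegree + 2) * q).natDegree =
        p.natDegree + 2 + q.natDegree := by
      rw [Polynomial.natDegree_mul (pow_ne_zero _ Polynomial.X_ne_zero) hq,
        Polynomial.natDegree_X_pow]
    have h7 : (Polynomial.X * p.reverse).natDegree ≤ 1 + p.natDegree :=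
      (Polynomial.natDegree_mul_le).trans
        (Nat.add_le_add Polynomial.natDegree_X_le (Polynomial.reverse_natDegree_le p))
    rw [← h1, h6] at h7
    omega
  rw [h5, mul_zero] at h1
  have h8 : p.reverse = 0 := by
    rcases mul_eq_zero.1 h1.symm with h | h
    · exact absurd h Polynomial.X_ne_zero
    · exact h
  exact Polynomial.reverse_eq_zero.1 h8

/-- restriction of a regular function on `SL_2` to a curve with polynomial entries -/
private theorem SLa_curve (P : MvPolynomial (Fin 2 × Fin 2) ℂ) (a b c d : Polynomial ℂ) :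
    ∃ p : Polynomial ℂ, ∀ (y : ℂ) (g : SLm 2),
      mat g = !![a.eval y, b.eval y; c.eval y, d.eval y] →
      MvPolynomial.eval (Co.co g) P = p.eval y := by
  refine ⟨MvPolynomial.aeval (fun q : Fin 2 × Fin 2 => (!![a, b; c, d] : Matrix _ _ _) q.1 q.2) P,
    fun y g hg => ?_⟩
  have h1 : (Co.co g : Fin 2 × Fin 2 → ℂ) = fun q =>
      ((!![a, b; c, d] : Matrix (Fin 2) (Fin 2) (Polynomial ℂ)) q.1 q.2).eval y := by
    funext q
    change mat g q.1 q.2 = _
    rw [hg]
    obtain ⟨i, j⟩ := q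
    fin_cases i <;> fin_cases j <;> rfl
  change MvPolynomial.eval (Co.co g : Fin 2 × Fin 2 → ℂ) P = _
  rw [h1]
  induction P using MvPolynomial.induction_on with
  | C r => rw [MvPolynomial.eval_C, MvPolynomial.aeval_C]; exact Polynomial.eval_C.symm
  | add s t hs ht => rw [map_add, map_add, hs, ht, Polynomial.eval_add]
  | mul_X s i hs => rw [map_mul, map_mul, hs, MvPolynomial.eval_X, MvPolynomial.aeval_X,
      Polynomial.eval_mul]

/-- **SLa** (`SL_2` has no highest weight vector of weight `-1`) -/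
theorem tSLa : S_SLa := by
  intro V _ _ σ hσ v hv
  refine (Module.forall_dual_apply_eq_zero_iff ℂ v).1 fun ℓ => ?_
  obtain ⟨P, hP⟩ := ((hσ v).map ℓ).toRegF
  have hP' : ∀ x, ℓ (σ x v) = MvPolynomial.eval (Co.co x) P := hP
  obtain ⟨p, hp⟩ := SLa_curve P 1 0 Polynomial.X 1
  obtain ⟨q, hq⟩ := SLa_curve P Polynomial.X (-1) 1 0
  have hp' : ∀ y : ℂ, ∀ h, p.eval y = ℓ (σ (SLa_mk 1 0 y 1 h) v) := by
    intro y h
    rw [hP', hp y _ (by rw [SLa_mk_mat]; simp)]
  have hq' : ∀ y : ℂ, ∀ h, q.eval y = ℓ (σ (SLa_mk y (-1) 1 0 h) v) := by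
    intro y h
    rw [hP', hq y _ (by rw [SLa_mk_mat]; simp)]
  have h0 : p = 0 := by
    refine SLa_poly p q fun c hc => ?_
    rw [hp' c⁻¹ (by ring), hq' c (by ring)]
    have h1 : SLa_mk c (-1) 1 0 (by ring) =
        SLa_mk 1 0 c⁻¹ 1 (by ring) * SLa_mk c (-1) 0 c⁻¹ (by field_simp; ring) := by
      apply Subtype.ext
      change mat _ = mat _
      rw [mat_mul, SLa_mk_mat, SLa_mk_mat, SLa_mk_mat, Matrix.mul_fin_two]
      have : c⁻¹ * c = 1 := inv_mul_cancel₀ hc
      ext i j
      fin_cases i <;> fin_cases j <;> simp [this]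
    have h2 := hv (SLa_mk c (-1) 0 c⁻¹ (by field_simp; ring)) rfl
    have h3 : mat (SLa_mk c (-1) 0 c⁻¹ (by field_simp; ring)) 0 0 = c := rfl
    rw [h3] at h2
    rw [h1, map_mul]
    change ℓ (σ _ (σ _ v)) = _
    rw [h2, map_smul, map_smul, smul_eq_mul]
  have h4 := hp' 0 (by ring)
  have h5 : SLa_mk 1 0 0 1 (by ring) = 1 := by
    apply Subtype.ext
    change mat _ = mat _
    rw [mat_one, SLa_mk_mat, Matrix.one_fin_two]
  rw [h0, Polynomial.eval_zero, h5, map_one] at h4
  exact h4.symm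

end PV
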