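import Pool.Agent.Lib.MP_3b3418_ag.PV.SpecJ

/-!
# `SL_2`: a vector fixed by the upper triangular matrices is fixed by `SL_2`
-/

set_option autoImplicit false

namespace PV

open MP3s

private lemma SLb_poly {f : ℂ → ℂ} (hf : RegF f) : ∃ Q : Polynomial ℂ, ∀ y, f y = Q.eval y := by
  obtain ⟨P, hP⟩ := hf
  have key : ∀ (y : ℂ) (P : MvPolynomial (Co.I ℂ) ℂ), MvPolynomial.eval (Co.co y) P =
      (MvPolynomial.eval₂ Polynomial.C (fun _ => Polynomial.X) P : Polynomial ℂ).eval y := by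
    intro y P
    induction P using MvPolynomial.induction_on with
    | C c => rw [MvPolynomial.eval_C, MvPolynomial.eval₂_C, Polynomial.eval_C]
    | add p q hp hq => rw [map_add, MvPolynomial.eval₂_add, Polynomial.eval_add, hp, hq]
    | mul_X p i hp =>
      rw [map_mul, MvPolynomial.eval₂_mul, Polynomial.eval_mul, hp, MvPolynomial.eval_X,
        MvPolynomial.eval₂_X, Polynomial.eval_X]
      rfl
  exact ⟨_, fun y => by rw [hP]; exact key y P⟩

private lemma SLb_id : RegF fun y : ℂ => y := RegF.co (X := ℂ) ()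

private def SLb_L (y : ℂ) : SLm 2 := ⟨!![1, 0; y, 1], by simp [Matrix.det_fin_two]⟩

private def SLb_Q (c : ℂ) : SLm 2 := ⟨!![c, -1; 1, 0], by simp [Matrix.det_fin_two]⟩

private def SLb_u : SLm 2 := ⟨!![1, 1; 0, 1], by simp [Matrix.det_fin_two]⟩

private lemma SLb_morL : Mor SLb_L := by
  rintro ⟨i, j⟩
  fin_cases i <;> fin_cases j
  · exact RegF.const (X := ℂ) 1
  · exact RegF.const (X := ℂ) 0
  · exact SLb_id
  · exact RegF.const (X := ℂ) 1

private lemma SLb_morQ : Mor SLb_Q := by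
  rintro ⟨i, j⟩
  fin_cases i <;> fin_cases j
  · exact SLb_id
  · exact RegF.const (X := ℂ) (-1)
  · exact RegF.const (X := ℂ) 1
  · exact RegF.const (X := ℂ) 0

/-- a polynomial in `c` which is a polynomial in `c⁻¹` -/
private lemma SLb_const (P Q : Polynomial ℂ) (h : ∀ c : ℂ, c ≠ 0 → Q.eval c = P.eval c⁻¹) (y : ℂ) :
    P.eval y = P.eval 0 := by
  have hdeg : ¬ 0 < P.degree := by
    intro hd
    have h1 : Filter.Tendsto (fun n : ℕ => ‖((n : ℂ) + 1)‖) Filter.atTop Filter.atTop := by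
      have h2 : (fun n : ℕ => ‖((n : ℂ) + 1)‖) = fun n : ℕ => (n : ℝ) + 1 := by
        funext n
        have h3 : ((n : ℂ) + 1) = ((n + 1 : ℕ) : ℂ) := by push_cast; ring
        rw [h3, Complex.norm_natCast]
        push_cast
        ring
      rw [h2]
      exact Filter.tendsto_atTop_add_const_right _ _ tendsto_natCast_atTop_atTop
    have h4 := P.tendsto_norm_atTop hd h1
    have h5 : Filter.Tendsto (fun n : ℕ => ((n : ℂ) + 1)⁻¹) Filter.atTop (nhds 0) := by
      rw [tendsto_zero_iff_norm_tendsto_zero]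
      have h6 : (fun n : ℕ => ‖((n : ℂ) + 1)⁻¹‖) = fun n : ℕ => ‖((n : ℂ) + 1)‖⁻¹ := by
        funext n
        exact norm_inv _
      rw [h6]
      exact h1.inv_tendsto_atTop
    have h7 : Filter.Tendsto (fun n : ℕ => ‖Q.eval ((n : ℂ) + 1)⁻¹‖) Filter.atTop
        (nhds ‖Q.eval 0‖) := ((Q.continuous.tendsto 0).comp h5).norm
    have h8 : (fun n : ℕ => ‖Q.eval ((n : ℂ) + 1)⁻¹‖) = fun n : ℕ => ‖P.eval ((n : ℂ) + 1)‖ := by
      funext n
      have h9 : ((n : ℂ) + 1) ≠ 0 := by exact_mod_cast Nat.succ_ne_zero n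
      rw [h _ (inv_ne_zero h9), inv_inv]
    rw [h8] at h7
    exact not_tendsto_nhds_of_tendsto_atTop h4 _ h7
  have h1 : P = Polynomial.C (P.coeff 0) := Polynomial.eq_C_of_degree_le_zero (not_lt.1 hdeg)
  rw [h1, Polynomial.eval_C, Polynomial.eval_C]

theorem tSLb : S_SLb := by
  intro V _ _ σ hσ v hv
  have hmul : ∀ (g k : SLm 2), σ (g * k) v = σ g (σ k v) := by
    intro g k
    rw [map_mul]
    rfl
  -- the lower triangular unipotent matrices
  have hL : ∀ y : ℂ, σ (SLb_L y) v = v := by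
    intro y
    rw [← sub_eq_zero, ← Module.forall_dual_apply_eq_zero_iff ℂ]
    intro l
    have hF : RegF fun g : SLm 2 => l (σ g v) := ((hσ v).map l).toRegF
    obtain ⟨P, hP⟩ := SLb_poly (hF.comp SLb_morL)
    obtain ⟨Q, hQ⟩ := SLb_poly (hF.comp SLb_morQ)
    have h1 : ∀ c : ℂ, c ≠ 0 → Q.eval c = P.eval c⁻¹ := by
      intro c hc
      have hU : (!![c, -1; 0, c⁻¹] : Matrix (Fin 2) (Fin 2) ℂ).det = 1 := by
        simp [Matrix.det_fin_two, hc]
      have h2 : SLb_Q c = SLb_L c⁻¹ * ⟨!![c, -1; 0, c⁻¹], hU⟩ := by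
        apply Subtype.ext
        change !![c, -1; 1, 0] = !![1, 0; c⁻¹, 1] * !![c, -1; 0, c⁻¹]
        rw [Matrix.mul_fin_two]
        simp [hc]
      rw [← hQ, ← hP, h2, hmul, hv _ rfl]
    have h3 := SLb_const P Q h1 y
    rw [← hP, ← hP] at h3
    have h4 : SLb_L 0 = 1 := by
      apply Subtype.ext
      change !![1, 0; 0, 1] = (1 : Matrix (Fin 2) (Fin 2) ℂ)
      exact Matrix.one_fin_two.symm
    rw [h4, map_one] at h3
    rw [map_sub, h3]
    exact sub_self _
  -- generation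
  have hgen : ∀ g : SLm 2, mat g 0 0 ≠ 0 → σ g v = v := by
    intro g hg
    have hdet : mat g 0 0 * mat g 1 1 - mat g 0 1 * mat g 1 0 = 1 := by
      have h := g.2
      rw [Matrix.det_fin_two] at h
      exact h
    have hU : (!![mat g 0 0, mat g 0 1; 0, (mat g 0 0)⁻¹] : Matrix (Fin 2) (Fin 2) ℂ).det = 1 := by
      simp [Matrix.det_fin_two, hg]
    have h2 : g = SLb_L (mat g 1 0 / mat g 0 0) * ⟨!![mat g 0 0, mat g 0 1; 0, (mat g 0 0)⁻¹], hU⟩ := by
      apply Subtype.ext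
      change mat g = !![1, 0; mat g 1 0 / mat g 0 0, 1] * !![mat g 0 0, mat g 0 1; 0, (mat g 0 0)⁻¹]
      rw [Matrix.mul_fin_two]
      have e0 : mat g = !![mat g 0 0, mat g 0 1; mat g 1 0, mat g 1 1] := Matrix.eta_fin_two _
      have e1 : mat g 1 0 / mat g 0 0 * mat g 0 0 = mat g 1 0 := div_mul_cancel₀ _ hg
      have e2 : mat g 1 0 / mat g 0 0 * mat g 0 1 + (mat g 0 0)⁻¹ = mat g 1 1 := by
        field_simp
        linear_combination -hdet
      rw [one_mul, one_mul, zero_mul, zero_mul, mul_zero, add_zero, add_zero, add_zero, e1,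
        one_mul, e2]
      exact e0
    rw [h2, hmul, hv _ rfl, hL]
  intro g
  by_cases hg : mat g 0 0 = 0
  · have hdet : mat g 0 0 * mat g 1 1 - mat g 0 1 * mat g 1 0 = 1 := by
      have h := g.2
      rw [Matrix.det_fin_two] at h
      exact h
    have hc : mat g 1 0 ≠ 0 := by
      intro h
      rw [hg, h] at hdet
      simp at hdet
    have h2 : mat (SLb_u * g) 0 0 ≠ 0 := by
      rw [mat_mul, Matrix.mul_apply, Fin.sum_univ_two]
      change (1 : ℂ) * mat g 0 0 + 1 * mat g 1 0 ≠ 0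
      rw [hg, mul_zero, zero_add, one_mul]
      exact hc
    have h3 := hgen _ h2
    have h4 : σ SLb_u⁻¹ v = v := by
      have h5 : σ (SLb_u⁻¹ * SLb_u) v = v := by
        rw [inv_mul_cancel, map_one]
        rfl
      rw [hmul, hv SLb_u rfl] at h5
      exact h5
    have h6 : g = SLb_u⁻¹ * (SLb_u * g) := by
      rw [inv_mul_cancel_left]
    rw [h6, hmul, h3, h4]
  · exact hgen g hg

end PV
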