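import Pool.Agent.Lib.MP_3b3418_ag.PV.SpecJ

/-!
# SLc: the raising operator from weight -1 to weight 1 is bijective
-/

set_option autoImplicit false

namespace PV

open MP3s

/-- A scalar regular function on the line is differentiable. -/
private theorem SLc_diff {f : ℂ → ℂ} (hf : RegF f) : Differentiable ℂ f := by
  obtain ⟨P, hP⟩ := hf
  have h1 : f = fun s => MvPolynomial.eval (Co.co s) P := funext hP
  rw [h1]
  clear hP h1
  induction P using MvPolynomial.induction_on with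
  | C c =>
    simp only [MvPolynomial.eval_C]
    exact differentiable_const c
  | add p q hp hq =>
    simp only [map_add]
    exact hp.add hq
  | mul_X p i hp =>
    simp only [map_mul, MvPolynomial.eval_X]
    exact hp.mul differentiable_id

/-- Linear functionals separate points. -/
private theorem SLc_sep {V : Type} [AddCommGroup V] [Module ℂ V] {v w : V}
    (h : ∀ ℓ : V →ₗ[ℂ] ℂ, ℓ v = ℓ w) : v = w :=
  sub_eq_zero.mp ((Module.forall_dual_apply_eq_zero_iff ℂ (v - w)).mp fun ℓ => by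
    rw [map_sub, h ℓ, sub_self])

/-- Elements of `SL_2` with the same entries are equal. -/
private theorem SLc_ext {g h : SLm 2} (h00 : mat g 0 0 = mat h 0 0)
    (h01 : mat g 0 1 = mat h 0 1) (h10 : mat g 1 0 = mat h 1 0)
    (h11 : mat g 1 1 = mat h 1 1) : g = h := by
  apply Matrix.SpecialLinearGroup.ext
  intro i j
  fin_cases i <;> fin_cases j
  · exact h00
  · exact h01
  · exact h10
  · exact h11

/-- Entries of a product. -/
private theorem SLc_mul (g h : SLm 2) (i j : Fin 2) :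
    mat (g * h) i j = mat g i 0 * mat h 0 j + mat g i 1 * mat h 1 j := by
  rw [mat_mul, Matrix.mul_apply, Fin.sum_univ_two]

/-- The determinant. -/
private theorem SLc_det (g : SLm 2) : mat g 0 0 * mat g 1 1 - mat g 0 1 * mat g 1 0 = 1 := by
  have h := g.2
  rw [Matrix.det_fin_two] at h
  exact h

/-- Elements of `SL_2` with given entries. -/
private theorem SLc_mk (a b c d : ℂ) (h : a * d - b * c = 1) :
    ∃ g : SLm 2, mat g 0 0 = a ∧ mat g 0 1 = b ∧ mat g 1 0 = c ∧ mat g 1 1 = d :=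
  ⟨⟨!![a, b; c, d], by rw [Matrix.det_fin_two_of, h]⟩, rfl, rfl, rfl, rfl⟩

/-- The one parameter group is a morphism. -/
private theorem SLc_mor {u : ℂ → SLm 2}
    (hu : ∀ s, mat (u s) 0 0 = 1 ∧ mat (u s) 0 1 = s ∧ mat (u s) 1 0 = 0 ∧ mat (u s) 1 1 = 1) :
    Mor u := by
  intro q
  obtain ⟨k, l⟩ := q
  fin_cases k <;> fin_cases l
  · have h : (fun x => mat (u x) 0 0) = fun _ => (1 : ℂ) := funext fun s => (hu s).1
    change RegF fun x => mat (u x) 0 0
    rw [h]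
    exact RegF.const 1
  · have h : (fun x => mat (u x) 0 1) = fun x => x := funext fun s => (hu s).2.1
    change RegF fun x => mat (u x) 0 1
    rw [h]
    exact RegF.co (X := ℂ) ()
  · have h : (fun x => mat (u x) 1 0) = fun _ => (0 : ℂ) := funext fun s => (hu s).2.2.1
    change RegF fun x => mat (u x) 1 0
    rw [h]
    exact RegF.const 0
  · have h : (fun x => mat (u x) 1 1) = fun _ => (1 : ℂ) := funext fun s => (hu s).2.2.2
    change RegF fun x => mat (u x) 1 1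
    rw [h]
    exact RegF.const 1

/-- The one parameter group is a homomorphism. -/
private theorem SLc_add {u : ℂ → SLm 2}
    (hu : ∀ s, mat (u s) 0 0 = 1 ∧ mat (u s) 0 1 = s ∧ mat (u s) 1 0 = 0 ∧ mat (u s) 1 1 = 1)
    (s t : ℂ) : u s * u t = u (s + t) := by
  obtain ⟨a1, a2, a3, a4⟩ := hu s
  obtain ⟨b1, b2, b3, b4⟩ := hu t
  obtain ⟨c1, c2, c3, c4⟩ := hu (s + t)
  refine SLc_ext ?_ ?_ ?_ ?_
  · rw [SLc_mul, a1, a2, b1, b3, c1]; ring
  · rw [SLc_mul, a1, a2, b2, b4, c2]; ring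
  · rw [SLc_mul, a3, a4, b1, b3, c3]; ring
  · rw [SLc_mul, a3, a4, b2, b4, c4]; ring

/-- The derivative at `0` exists. -/
private theorem SLc_der {V : Type} [AddCommGroup V] [Module ℂ V]
    {σ : Representation ℂ (SLm 2) V} (hσ : Rat σ) {u : ℂ → SLm 2}
    (hu : ∀ s, mat (u s) 0 0 = 1 ∧ mat (u s) 0 1 = s ∧ mat (u s) 1 0 = 0 ∧ mat (u s) 1 1 = 1)
    (v : V) : ∃ w : V, ∀ ℓ : V →ₗ[ℂ] ℂ, HasDerivAt (fun s => ℓ (σ (u s) v)) (ℓ w) 0 := by
  obtain ⟨n, a, v', ha, h1⟩ := hσ v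
  refine ⟨∑ k, deriv (fun s => a k (u s)) 0 • v' k, fun ℓ => ?_⟩
  have h2 : (fun s => ℓ (σ (u s) v)) = fun s => ∑ k, a k (u s) * ℓ (v' k) := by
    funext s
    have h3 := h1 (u s)
    beta_reduce at h3
    rw [h3, map_sum]
    exact Finset.sum_congr rfl fun k _ => by rw [map_smul, smul_eq_mul]
  rw [h2, map_sum]
  have h4 : ∀ k ∈ Finset.univ, HasDerivAt (fun s => a k (u s) * ℓ (v' k))
      (ℓ (deriv (fun s => a k (u s)) 0 • v' k)) 0 := by
    intro k _
    rw [map_smul, smul_eq_mul]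
    exact ((SLc_diff ((ha k).comp (SLc_mor hu))).differentiableAt.hasDerivAt).mul_const _
  exact HasDerivAt.fun_sum h4

/-- The derivative at any point. -/
private theorem SLc_shift {V : Type} [AddCommGroup V] [Module ℂ V]
    {σ : Representation ℂ (SLm 2) V} {u : ℂ → SLm 2}
    (hu : ∀ s, mat (u s) 0 0 = 1 ∧ mat (u s) 0 1 = s ∧ mat (u s) 1 0 = 0 ∧ mat (u s) 1 1 = 1)
    {v w : V} (h : ∀ ℓ : V →ₗ[ℂ] ℂ, HasDerivAt (fun s => ℓ (σ (u s) v)) (ℓ w) 0)
    (ℓ : V →ₗ[ℂ] ℂ) (s : ℂ) :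
    HasDerivAt (fun r => ℓ (σ (u r) v)) (ℓ (σ (u s) w)) s := by
  have h1 := h (ℓ ∘ₗ σ (u s))
  have h2 : HasDerivAt (fun r => (ℓ ∘ₗ σ (u s)) (σ (u (r - s)) v))
      ((ℓ ∘ₗ σ (u s)) w) s := by
    have h6 : HasDerivAt (fun r => (ℓ ∘ₗ σ (u s)) (σ (u r) v)) ((ℓ ∘ₗ σ (u s)) w) (s - s) := by
      rw [sub_self]
      exact h1
    exact HasDerivAt.comp_sub_const s s h6
  have h3 : (fun r => (ℓ ∘ₗ σ (u s)) (σ (u (r - s)) v)) = fun r => ℓ (σ (u r) v) := by
    funext r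
    have h4 : σ (u s) (σ (u (r - s)) v) = σ (u r) v := by
      have h5 : u s * u (r - s) = u r := by
        rw [SLc_add hu, add_sub_cancel]
      rw [← h5, map_mul]
      rfl
    exact congrArg ℓ h4
  rw [h3] at h2
  exact h2

/-- Derivative `0` at `0` implies that the vector is fixed. -/
private theorem SLc_fix {V : Type} [AddCommGroup V] [Module ℂ V]
    {σ : Representation ℂ (SLm 2) V} {u : ℂ → SLm 2}
    (hu : ∀ s, mat (u s) 0 0 = 1 ∧ mat (u s) 0 1 = s ∧ mat (u s) 1 0 = 0 ∧ mat (u s) 1 1 = 1)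
    {v : V} (h : ∀ ℓ : V →ₗ[ℂ] ℂ, HasDerivAt (fun s => ℓ (σ (u s) v)) 0 0) (s : ℂ) :
    σ (u s) v = v := by
  have h1 : ∀ ℓ : V →ₗ[ℂ] ℂ, HasDerivAt (fun s => ℓ (σ (u s) v)) (ℓ (0 : V)) 0 := fun ℓ => by
    rw [map_zero]
    exact h ℓ
  have h0 : u 0 = 1 := by
    obtain ⟨a1, a2, a3, a4⟩ := hu 0
    refine SLc_ext ?_ ?_ ?_ ?_
    · rw [a1, mat_one]; rfl
    · rw [a2, mat_one]; rfl
    · rw [a3, mat_one]; rfl
    · rw [a4, mat_one]; rfl
  refine SLc_sep fun ℓ => ?_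
  have h2 : ∀ r, HasDerivAt (fun r => ℓ (σ (u r) v)) 0 r := fun r => by
    have h3 := SLc_shift hu h1 ℓ r
    rw [map_zero, map_zero] at h3
    exact h3
  have h4 := is_const_of_deriv_eq_zero (fun r => (h2 r).differentiableAt)
    (fun r => (h2 r).deriv) s 0
  beta_reduce at h4
  rw [h4, h0, map_one]
  rfl

/-- Injectivity in weight `-1`. -/
private theorem SLc_inj (hA : S_SLa) {V : Type} [AddCommGroup V] [Module ℂ V]
    {σ : Representation ℂ (SLm 2) V} (hσ : Rat σ) {u : ℂ → SLm 2}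
    (hu : ∀ s, mat (u s) 0 0 = 1 ∧ mat (u s) 0 1 = s ∧ mat (u s) 1 0 = 0 ∧ mat (u s) 1 1 = 1)
    (v : V) (hv : ∀ g : SLm 2, mat g 1 0 = 0 → mat g 0 1 = 0 → σ g v = (mat g 0 0)⁻¹ • v)
    (h : ∀ ℓ : V →ₗ[ℂ] ℂ, HasDerivAt (fun s => ℓ (σ (u s) v)) 0 0) : v = 0 := by
  refine hA V σ hσ v fun g hg => ?_
  have hd := SLc_det g
  rw [hg, mul_zero, sub_zero] at hd
  have hne : mat g 0 0 ≠ 0 := fun h0 => by
    rw [h0, zero_mul] at hd
    exact zero_ne_one hd
  obtain ⟨d, d1, d2, d3, d4⟩ := SLc_mk (mat g 0 0) 0 0 (mat g 1 1) (by rw [hd]; ring)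
  obtain ⟨a1, a2, a3, a4⟩ := hu ((mat g 0 0)⁻¹ * mat g 0 1)
  have h1 : g = d * u ((mat g 0 0)⁻¹ * mat g 0 1) := by
    refine SLc_ext ?_ ?_ ?_ ?_
    · rw [SLc_mul, d1, d2, a1, a3]; ring
    · rw [SLc_mul, d1, d2, a2, a4, mul_inv_cancel_left₀ hne]; ring
    · rw [SLc_mul, d3, d4, a1, a3, hg]; ring
    · rw [SLc_mul, d3, d4, a2, a4]; ring
  have h2 : σ g v = σ d (σ (u ((mat g 0 0)⁻¹ * mat g 0 1)) v) := by
    conv_lhs => rw [h1, map_mul]
    rfl
  rw [h2, SLc_fix hu h, hv d d3 d2, d1]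

/-- The derivative maps weight `-1` to weight `1`. -/
private theorem SLc_wt {V : Type} [AddCommGroup V] [Module ℂ V]
    {σ : Representation ℂ (SLm 2) V} {u : ℂ → SLm 2}
    (hu : ∀ s, mat (u s) 0 0 = 1 ∧ mat (u s) 0 1 = s ∧ mat (u s) 1 0 = 0 ∧ mat (u s) 1 1 = 1)
    {v w : V} (hv : ∀ g : SLm 2, mat g 1 0 = 0 → mat g 0 1 = 0 → σ g v = (mat g 0 0)⁻¹ • v)
    (h : ∀ ℓ : V →ₗ[ℂ] ℂ, HasDerivAt (fun s => ℓ (σ (u s) v)) (ℓ w) 0)
    (g : SLm 2) (g1 : mat g 1 0 = 0) (g2 : mat g 0 1 = 0) : σ g w = mat g 0 0 • w := by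
  have hd := SLc_det g
  rw [g1, mul_zero, sub_zero] at hd
  have hne : mat g 0 0 ≠ 0 := fun h0 => by
    rw [h0, zero_mul] at hd
    exact zero_ne_one hd
  refine SLc_sep fun ℓ => ?_
  have h1 := h (ℓ ∘ₗ σ g)
  have h2 : (fun s => (ℓ ∘ₗ σ g) (σ (u s) v)) =
      fun s => (mat g 0 0)⁻¹ * ℓ (σ (u (mat g 0 0 ^ 2 * s)) v) := by
    funext s
    have h3 : g * u s = u (mat g 0 0 ^ 2 * s) * g := by
      obtain ⟨a1, a2, a3, a4⟩ := hu s
      obtain ⟨b1, b2, b3, b4⟩ := hu (mat g 0 0 ^ 2 * s)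
      refine SLc_ext ?_ ?_ ?_ ?_
      · rw [SLc_mul, SLc_mul, a1, a3, b1, b2, g1]; ring
      · rw [SLc_mul, SLc_mul, a2, a4, b1, b2, g2]
        linear_combination (-(mat g 0 0 * s)) * hd
      · rw [SLc_mul, SLc_mul, a1, a3, b3, b4, g1]; ring
      · rw [SLc_mul, SLc_mul, a2, a4, b3, b4, g1, g2]; ring
    have h4 : σ g (σ (u s) v) = (mat g 0 0)⁻¹ • σ (u (mat g 0 0 ^ 2 * s)) v := by
      have h5 : σ g (σ (u s) v) = σ (u (mat g 0 0 ^ 2 * s)) (σ g v) := by
        have h6 : σ (g * u s) v = σ (u (mat g 0 0 ^ 2 * s) * g) v := by rw [h3]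
        rw [map_mul, map_mul] at h6
        exact h6
      rw [h5, hv g g1 g2, map_smul]
    change ℓ (σ g (σ (u s) v)) = _
    rw [h4, map_smul, smul_eq_mul]
  rw [h2] at h1
  have h7 : HasDerivAt (fun s => ℓ (σ (u (mat g 0 0 ^ 2 * s)) v)) (mat g 0 0 ^ 2 * ℓ w) 0 := by
    have h8 : HasDerivAt (fun s : ℂ => mat g 0 0 ^ 2 * s) (mat g 0 0 ^ 2) 0 := by
      simpa using (hasDerivAt_id (0 : ℂ)).const_mul (mat g 0 0 ^ 2)
    have h9 : HasDerivAt (fun s => ℓ (σ (u s) v)) (ℓ w) (mat g 0 0 ^ 2 * 0) := by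
      rw [mul_zero]
      exact h ℓ
    have h10 := HasDerivAt.comp (0 : ℂ) h9 h8
    rw [mul_comm] at h10
    exact h10
  have h11 := (h7.const_mul (mat g 0 0)⁻¹).unique h1
  change (ℓ ∘ₗ σ g) w = _
  rw [← h11, map_smul, smul_eq_mul]
  field_simp

/-- The raising operator from weight `-1` to weight `1` is bijective. -/
theorem tSLc : S_SLa → S_SLc := by
  intro hA V _ _ σ hσ u hu
  refine ⟨fun v hv h => SLc_inj hA hσ hu v hv h, fun w hw => ?_⟩
  obtain ⟨J, j1, j2, j3, j4⟩ := SLc_mk 0 1 (-1) 0 (by ring)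
  choose E hE using SLc_der hσ hu
  have hadd : ∀ x y, E (x + y) = E x + E y := by
    intro x y
    refine SLc_sep fun ℓ => ?_
    have h1 : HasDerivAt (fun s => ℓ (σ (u s) (x + y))) (ℓ (E x) + ℓ (E y)) 0 := by
      simp only [map_add]
      exact (hE x ℓ).add (hE y ℓ)
    rw [map_add]
    exact (hE (x + y) ℓ).unique h1
  have hsmul : ∀ (c : ℂ) x, E (c • x) = c • E x := by
    intro c x
    refine SLc_sep fun ℓ => ?_
    have h1 : HasDerivAt (fun s => ℓ (σ (u s) (c • x))) (c * ℓ (E x)) 0 := by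
      simp only [map_smul, smul_eq_mul]
      exact (hE x ℓ).const_mul c
    rw [map_smul, smul_eq_mul]
    exact (hE (c • x) ℓ).unique h1
  let W : Submodule ℂ V := Submodule.span ℂ (Set.range fun g : SLm 2 => σ g w)
  have hwW : w ∈ W := by
    refine Submodule.subset_span ⟨1, ?_⟩
    beta_reduce
    rw [map_one]
    rfl
  have hst : ∀ g, ∀ v ∈ W, σ g v ∈ W := by
    intro g v hv
    induction hv using Submodule.span_induction with
    | mem x hx =>
      obtain ⟨g', rfl⟩ := hx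
      refine Submodule.subset_span ⟨g * g', ?_⟩
      beta_reduce
      rw [map_mul]
      rfl
    | zero =>
      rw [map_zero]
      exact W.zero_mem
    | add x y _ _ hx hy =>
      rw [map_add]
      exact W.add_mem hx hy
    | smul c x _ hx =>
      rw [map_smul]
      exact W.smul_mem c hx
  have hEW : ∀ v ∈ W, E v ∈ W := by
    intro v hv
    by_contra hne
    obtain ⟨ℓ, hℓ, hW⟩ := Submodule.exists_le_ker_of_notMem hne
    have h1 : (fun s => ℓ (σ (u s) v)) = fun _ => (0 : ℂ) := funext fun s => hW (hst (u s) v hv)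
    have h2 := hE v ℓ
    rw [h1] at h2
    exact hℓ (h2.unique (hasDerivAt_const (0 : ℂ) (0 : ℂ)))
  have hfin : FiniteDimensional ℂ W := by
    obtain ⟨n, a, v', ha, h1⟩ := hσ w
    have h2 : W ≤ Submodule.span ℂ (Set.range v') := by
      refine Submodule.span_le.mpr ?_
      rintro x ⟨g, rfl⟩
      rw [h1 g]
      exact Submodule.sum_mem _ fun k _ =>
        Submodule.smul_mem _ _ (Submodule.subset_span ⟨k, rfl⟩)
    have h3 : FiniteDimensional ℂ (Submodule.span ℂ (Set.range v')) :=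
      FiniteDimensional.span_of_finite ℂ (Set.finite_range v')
    exact Submodule.finiteDimensional_of_le h2
  let P : Submodule ℂ V :=
    { carrier := {v | v ∈ W ∧ ∀ g : SLm 2, mat g 1 0 = 0 → mat g 0 1 = 0 →
        σ g v = mat g 0 0 • v}
      add_mem' := fun {x y} hx hy => ⟨W.add_mem hx.1 hy.1, fun g g1 g2 => by
        rw [map_add, hx.2 g g1 g2, hy.2 g g1 g2, smul_add]⟩
      zero_mem' := ⟨W.zero_mem, fun g g1 g2 => by rw [map_zero, smul_zero]⟩
      smul_mem' := fun c x hx => ⟨W.smul_mem c hx.1, fun g g1 g2 => by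
        rw [map_smul, hx.2 g g1 g2, smul_comm]⟩ }
  have hPW : P ≤ W := fun x hx => hx.1
  have hfinP : FiniteDimensional ℂ P := Submodule.finiteDimensional_of_le hPW
  have hJ : ∀ x ∈ P, ∀ g : SLm 2, mat g 1 0 = 0 → mat g 0 1 = 0 →
      σ g (σ J x) = (mat g 0 0)⁻¹ • σ J x := by
    intro x hx g g1 g2
    have hd := SLc_det g
    rw [g1, mul_zero, sub_zero] at hd
    have hne : mat g 0 0 ≠ 0 := fun h0 => by
      rw [h0, zero_mul] at hd
      exact zero_ne_one hd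
    obtain ⟨d, d1, d2, d3, d4⟩ := SLc_mk (mat g 1 1) 0 0 (mat g 0 0)
      (by rw [mul_comm, hd]; ring)
    have h1 : g * J = J * d := by
      refine SLc_ext ?_ ?_ ?_ ?_
      · rw [SLc_mul, SLc_mul, g2, j1, j2, j3, d1, d3]; ring
      · rw [SLc_mul, SLc_mul, g2, j1, j2, j4, d2, d4]; ring
      · rw [SLc_mul, SLc_mul, g1, j1, j3, j4, d1, d3]; ring
      · rw [SLc_mul, SLc_mul, g1, j2, j3, j4, d2, d4]; ring
    have h2 : σ g (σ J x) = σ J (σ d x) := by
      have h3 : σ (g * J) x = σ (J * d) x := by rw [h1]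
      rw [map_mul, map_mul] at h3
      exact h3
    have h4 : mat g 1 1 = (mat g 0 0)⁻¹ := eq_inv_of_mul_eq_one_right hd
    rw [h2, hx.2 d d3 d2, d1, map_smul, h4]
  let T : P →ₗ[ℂ] P :=
    { toFun := fun x => ⟨E (σ J x.1), hEW _ (hst J _ x.2.1), fun g g1 g2 =>
        SLc_wt hu (hJ x.1 x.2) (hE (σ J x.1)) g g1 g2⟩
      map_add' := fun x y => Subtype.ext (by
        change E (σ J (x.1 + y.1)) = E (σ J x.1) + E (σ J y.1)
        rw [map_add, hadd])
      map_smul' := fun c x => Subtype.ext (by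
        change E (σ J (c • x.1)) = c • E (σ J x.1)
        rw [map_smul, hsmul]) }
  have hTi : Function.Injective T := by
    refine (injective_iff_map_eq_zero T).mpr fun x hx => ?_
    have h1 : E (σ J x.1) = 0 := congrArg Subtype.val hx
    have h2 : σ J x.1 = 0 := by
      refine SLc_inj hA hσ hu (σ J x.1) (hJ x.1 x.2) fun ℓ => ?_
      have h3 := hE (σ J x.1) ℓ
      rw [h1, map_zero] at h3
      exact h3
    have h4 : σ (J⁻¹ * J) x.1 = 0 := by
      rw [map_mul]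
      change σ J⁻¹ (σ J x.1) = 0
      rw [h2, map_zero]
    rw [inv_mul_cancel, map_one] at h4
    exact Subtype.ext h4
  obtain ⟨x, hx⟩ := LinearMap.injective_iff_surjective.mp hTi ⟨w, hwW, hw⟩
  have hx' : E (σ J x.1) = w := congrArg Subtype.val hx
  exact ⟨σ J x.1, hJ x.1 x.2, fun ℓ => by
    have h3 := hE (σ J x.1) ℓ
    rw [hx'] at h3
    exact h3⟩

end PV
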