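import Pool.Agent.Lib.MP_3b3418_ag.PV.SpecJ

/-!
# The exact sequence of coinduced modules given by the derivative along a one parameter group
-/

set_option autoImplicit false

namespace PV

open MP3s

section algebra

variable {m : ℕ}

private theorem Stp_ext {b c : Bo m} (h : ∀ k l, mB b k l = mB c k l) : b = c := by
  apply Subtype.ext
  apply Subtype.ext
  exact Matrix.ext h

private theorem Stp_one (k l : Fin m) : mB (1 : Bo m) k l = if k = l then 1 else 0 :=
  Matrix.one_apply

private theorem Stp_mulU {i j : Fin m} {u : ℂ → Bo m} (hU : IsU i j u) (b : Bo m) (s : ℂ)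
    (k l : Fin m) : mB (b * u s) k l = mB b k l + if l = j then mB b k i * s else 0 := by
  rw [mB_mul, Matrix.mul_apply]
  have h1 : ∀ p, mB b k p * mB (u s) p l
      = (if p = l then mB b k p else 0) + if p = i then (if l = j then mB b k i * s else 0) else 0 := by
    intro p
    rw [hU s p l]
    by_cases h1 : p = l <;> by_cases h2 : p = i <;> by_cases h3 : l = j <;>
      simp [h1, h2, h3] <;> (try subst h1) <;> (try subst h2) <;> (try simp_all) <;> (try ring)
  rw [Finset.sum_congr rfl fun p _ => h1 p, Finset.sum_add_distrib, Finset.sum_ite_eq',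
    Finset.sum_ite_eq', if_pos (Finset.mem_univ _), if_pos (Finset.mem_univ _)]

private theorem Stp_Umul {i j : Fin m} {u : ℂ → Bo m} (hU : IsU i j u) (b : Bo m) (s : ℂ)
    (k l : Fin m) : mB (u s * b) k l = mB b k l + if k = i then s * mB b j l else 0 := by
  rw [mB_mul, Matrix.mul_apply]
  have h1 : ∀ p, mB (u s) k p * mB b p l
      = (if k = p then mB b p l else 0) + if p = j then (if k = i then s * mB b j l else 0) else 0 := by
    intro p
    rw [hU s k p]
    by_cases h1 : k = p <;> by_cases h2 : p = j <;> by_cases h3 : k = i <;>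
      simp [h1, h2, h3] <;> (try subst h1) <;> (try subst h2) <;> (try simp_all) <;> (try ring)
  rw [Finset.sum_congr rfl fun p _ => h1 p, Finset.sum_add_distrib, Finset.sum_ite_eq,
    Finset.sum_ite_eq', if_pos (Finset.mem_univ _), if_pos (Finset.mem_univ _)]

private theorem Stp_u0 {i j : Fin m} {u : ℂ → Bo m} (hU : IsU i j u) : u 0 = 1 := by
  refine Stp_ext fun k l => ?_
  rw [hU 0 k l, Stp_one, ite_self, add_zero]

private theorem Stp_uneg {i j : Fin m} {u : ℂ → Bo m} (hij : i < j) (hU : IsU i j u) (s : ℂ) :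
    u s * u (-s) = 1 := by
  refine Stp_ext fun k l => ?_
  rw [Stp_mulU hU, hU s k l, hU s k i, Stp_one]
  have hne : i ≠ j := ne_of_lt hij
  by_cases h1 : k = i <;> by_cases h2 : l = j <;> simp [h1, h2, hne]

private theorem Stp_torus {i j : Fin m} {u : ℂ → Bo m} (hU : IsU i j u) {t : Bo m} (ht : IsT t)
    (s : ℂ) : t * u s = u (mB t i i / mB t j j * s) * t := by
  refine Stp_ext fun k l => ?_
  rw [Stp_mulU hU, Stp_Umul hU]
  congr 1
  have hj : mB t j j ≠ 0 := mB_diag_ne t j
  by_cases h1 : k = i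
  · by_cases h2 : l = j
    · rw [if_pos h1, if_pos h2, h1, h2]
      field_simp
    · rw [if_neg h2, if_pos h1, ht j l (Ne.symm h2), mul_zero]
  · by_cases h2 : l = j
    · rw [if_pos h2, if_neg h1, ht k i h1, zero_mul]
    · rw [if_neg h2, if_neg h1]

private theorem Stp_chr {i j : Fin m} (χ : Fin m → ℤ) (t : Bo m) :
    chr (χ + root i j) t = chr χ t * (mB t i i / mB t j j) := by
  have h0 : ∀ k, mB t k k ≠ 0 := fun k => mB_diag_ne t k
  have h1 : ∏ k, mB t k k ^ (if k = i then (1 : ℤ) else 0) = mB t i i := by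
    rw [Finset.prod_eq_single i]
    · rw [if_pos rfl, zpow_one]
    · intro k _ hk
      rw [if_neg hk, zpow_zero]
    · exact fun h => absurd (Finset.mem_univ i) h
  have h2 : ∏ k, mB t k k ^ (if k = j then (1 : ℤ) else 0) = mB t j j := by
    rw [Finset.prod_eq_single j]
    · rw [if_pos rfl, zpow_one]
    · intro k _ hk
      rw [if_neg hk, zpow_zero]
    · exact fun h => absurd (Finset.mem_univ j) h
  unfold chr
  rw [← h1, ← h2, ← Finset.prod_div_distrib, ← Finset.prod_mul_distrib]
  refine Finset.prod_congr rfl fun k _ => ?_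
  rw [Pi.add_apply, zpow_add₀ (h0 k)]
  unfold root
  rw [zpow_sub₀ (h0 k)]

end algebra

section analysis

variable {m : ℕ} {V : Type} [AddCommGroup V] [Module ℂ V]

private theorem Stp_sep {v w : V} (h : ∀ ℓ : V →ₗ[ℂ] ℂ, ℓ v = ℓ w) : v = w := by
  have h1 : v - w = 0 := (Module.forall_dual_apply_eq_zero_iff ℂ (v - w)).1 fun ℓ => by
    change ℓ (v - w) = 0
    rw [map_sub, h ℓ, sub_self]
  exact sub_eq_zero.1 h1

/-- `g` is the derivative of `f` along right translations by `u`. -/
private def StpD (u : ℂ → Bo m) (f g : Bo m → V) : Prop :=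
  ∀ (ℓ : V →ₗ[ℂ] ℂ) (x : Bo m), HasDerivAt (fun r => ℓ (f (x * u r))) (ℓ (g x)) 0

private theorem Stp_uniq {u : ℂ → Bo m} {f g g' : Bo m → V} (h : StpD u f g) (h' : StpD u f g') :
    g = g' := funext fun x => Stp_sep fun ℓ => (h ℓ x).unique (h' ℓ x)

private theorem Stp_add {u : ℂ → Bo m} {f g f' g' : Bo m → V} (h : StpD u f g)
    (h' : StpD u f' g') : StpD u (f + f') (g + g') := by
  intro ℓ x
  have h1 := (h ℓ x).add (h' ℓ x)
  rw [Pi.add_apply, map_add]
  refine h1.congr_of_eventuallyEq (Filter.Eventually.of_forall fun r => ?_)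
  beta_reduce
  rw [Pi.add_apply, map_add]
  rfl

private theorem Stp_smul {u : ℂ → Bo m} {f g : Bo m → V} (c : ℂ) (h : StpD u f g) :
    StpD u (c • f) (c • g) := by
  intro ℓ x
  have h1 := (h ℓ x).const_mul c
  rw [Pi.smul_apply, map_smul, smul_eq_mul]
  refine h1.congr_of_eventuallyEq (Filter.Eventually.of_forall fun r => ?_)
  beta_reduce
  rw [Pi.smul_apply, map_smul, smul_eq_mul]

private theorem Stp_mem {i j : Fin m} {u : ℂ → Bo m} {S' S : Set (Bo m)} (hS : Step i j u S' S)
    (χ : Fin m → ℤ) {f g : Bo m → V} (hf : f ∈ Hs V S' χ) (hg : Reg g) (h : StpD u f g) :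
    g ∈ Hs V S' (χ + root i j) := by
  have hu1 : ∀ s, u s * u (-s) = 1 := Stp_uneg hS.lt hS.isU
  refine ⟨hg, fun b n hn => ?_, fun b t ht => ?_⟩
  · refine Stp_sep fun ℓ => (h ℓ (b * n)).unique ?_
    refine (h ℓ b).congr_of_eventuallyEq (Filter.Eventually.of_forall fun r => ?_)
    beta_reduce
    have e : b * n * u r = b * u r * (u (-r) * n * u r) := by
      have e1 : b * u r * (u (-r) * n * u r) = b * (u r * u (-r)) * n * u r := by
        simp only [mul_assoc]
      rw [e1, hu1 r, mul_one]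
    rw [e, hf.2.1 (b * u r) _ (hS.nor n hn r)]
  · refine Stp_sep fun ℓ => (h ℓ (b * t)).unique ?_
    have h1 : HasDerivAt (fun r : ℂ => mB t i i / mB t j j * r) (mB t i i / mB t j j) 0 := by
      simpa using (hasDerivAt_id (0 : ℂ)).const_mul (mB t i i / mB t j j)
    have h2 : HasDerivAt (fun r => ℓ (f (b * u r))) (ℓ (g b)) (mB t i i / mB t j j * 0) := by
      rw [mul_zero]
      exact h ℓ b
    have h3 := (h2.comp (0 : ℂ) h1).const_mul (chr χ t)
    have h4 : ℓ (chr (χ + root i j) t • g b)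
        = chr χ t * (ℓ (g b) * (mB t i i / mB t j j)) := by
      rw [map_smul, smul_eq_mul, Stp_chr]
      ring
    rw [h4]
    refine h3.congr_of_eventuallyEq (Filter.Eventually.of_forall fun r => ?_)
    beta_reduce
    have e : b * t * u r = b * u (mB t i i / mB t j j * r) * t := by
      rw [mul_assoc, Stp_torus hS.isU ht, ← mul_assoc]
    rw [e, hf.2.2 _ t ht, map_smul, smul_eq_mul]
    rfl

end analysis

/-- **Stp**, from the derivative and the integral along the one parameter group. -/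
theorem tStp : S_Der → S_Stp := by
  intro hDer m V _ _ ρ _ i j u S' S χ hS θ' θ θ'' hθ' hθ hθ''
  obtain ⟨hD1, hD2⟩ := hDer m V i j u hS.lt hS.isU
  have hu0 : u 0 = 1 := Stp_u0 hS.isU
  choose! D hDreg hDder using hD1
  have hDD : ∀ f, Reg f → StpD u f (D f) := by
    intro f hf ℓ x
    have h1 := hDder f hf ℓ x 0
    rw [hu0, mul_one] at h1
    exact h1
  -- the inclusion
  let ι : Hs V S χ →ₗ[ℂ] Hs V S' χ :=
    { toFun := fun f => ⟨f.1, f.2.1, fun b n hn => f.2.2.1 b n (hS.sub hn), f.2.2.2⟩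
      map_add' := fun f g => rfl
      map_smul' := fun c f => rfl }
  -- the derivative
  let π : Hs V S' χ →ₗ[ℂ] Hs V S' (χ + root i j) :=
    { toFun := fun f => ⟨D f.1, Stp_mem hS χ f.2 (hDreg f.1 f.2.1) (hDD f.1 f.2.1)⟩
      map_add' := fun f g => Subtype.ext (Stp_uniq (hDD (f + g).1 (f + g).2.1)
        (Stp_add (hDD f.1 f.2.1) (hDD g.1 g.2.1)))
      map_smul' := fun c f => Subtype.ext (Stp_uniq (hDD (c • f).1 (c • f).2.1)
        (Stp_smul c (hDD f.1 f.2.1))) }
  have hι : ∀ f x, (ι f).1 x = f.1 x := fun f x => rfl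
  have hπ : ∀ f : Hs V S' χ, StpD u f.1 (π f).1 := fun f => hDD f.1 f.2.1
  refine ⟨ι, π, ⟨?_, ?_, ?_, ?_, ?_⟩, hι, fun f x ℓ => hπ f ℓ x⟩
  · intro f g hfg
    apply Subtype.ext
    funext x
    rw [← hι f x, ← hι g x, hfg]
  · intro g
    obtain ⟨f, hf, hfg⟩ := hD2 S' S χ hS g.1 g.2
    refine ⟨⟨f, hf⟩, Subtype.ext (Stp_uniq (hπ ⟨f, hf⟩) fun ℓ x => ?_)⟩
    have h1 := hfg ℓ x 0
    rw [hu0, mul_one] at h1
    exact h1
  · intro f
    constructor
    · intro h0
      have hD0 : D f.1 = 0 := congrArg Subtype.val h0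
      have hcon : ∀ (x : Bo m) (s : ℂ), f.1 (x * u s) = f.1 x := by
        intro x s
        refine Stp_sep fun ℓ => ?_
        have h1 : ∀ r : ℂ, HasDerivAt (fun r => ℓ (f.1 (x * u r))) 0 r := by
          intro r
          have h2 := hDder f.1 f.2.1 ℓ x r
          rw [hD0, Pi.zero_apply, map_zero] at h2
          exact h2
        have h3 := is_const_of_deriv_eq_zero (f := fun r => ℓ (f.1 (x * u r)))
          (fun r => (h1 r).differentiableAt) (fun r => (h1 r).deriv) s 0
        beta_reduce at h3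
        rw [h3, hu0, mul_one]
      refine ⟨⟨f.1, f.2.1, fun b n hn => ?_, f.2.2.2⟩, rfl⟩
      obtain ⟨s, n', hn', rfl⟩ := hS.gen n hn
      rcases hn' with rfl | hn'
      · rw [mul_one]
        exact hcon b s
      · rw [← mul_assoc, f.2.2.1 (b * u s) n' hn']
        exact hcon b s
    · rintro ⟨f', rfl⟩
      refine Subtype.ext (Stp_uniq (hπ (ι f')) fun ℓ x => ?_)
      have h1 : (fun r => ℓ ((ι f').1 (x * u r))) = fun _ => ℓ (f'.1 x) := by
        funext r
        rw [hι, f'.2.2.1 x (u r) (hS.mem r)]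
      rw [h1]
      have h2 : ℓ ((0 : Hs V S' (χ + root i j)).1 x) = 0 := by
        change ℓ 0 = 0
        exact map_zero ℓ
      rw [h2]
      exact hasDerivAt_const _ _
  · intro b v
    apply Subtype.ext
    funext x
    rw [hι, hθ' b v x, hθ b (ι v) x, hι]
  · intro b v
    refine Subtype.ext (Stp_uniq (hπ (θ b v)) fun ℓ x => ?_)
    have h1 := hπ v (ℓ.comp (ρ b)) (b⁻¹ * x)
    rw [hθ'' b (π v) x]
    refine h1.congr_of_eventuallyEq (Filter.Eventually.of_forall fun r => ?_)
    beta_reduce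
    rw [hθ b v, ← mul_assoc]
    rfl

end PV
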