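import Pool.Agent.Lib.MP_3b3418_ag.PV.SpecJ

/-!
# VA: the module coinduced from the root subgroup is acyclic
-/

set_option autoImplicit false

namespace PV

open MP3s

private theorem VA_mul_right {m : ℕ} (a t : Bo m) (ht : IsT t) (k l : Fin m) :
    mB (a * t) k l = mB a k l * mB t l l := by
  rw [mB_mul, Matrix.mul_apply]
  exact Finset.sum_eq_single l (fun r _ hr => by rw [ht r l hr, mul_zero])
    fun h => absurd (Finset.mem_univ l) h

private theorem VA_mul_left {m : ℕ} (a t : Bo m) (ht : IsT t) (k l : Fin m) :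
    mB (t * a) k l = mB t k k * mB a k l := by
  rw [mB_mul, Matrix.mul_apply]
  exact Finset.sum_eq_single k (fun r _ hr => by rw [ht k r (Ne.symm hr), zero_mul])
    fun h => absurd (Finset.mem_univ k) h

private theorem VA_ext {m : ℕ} {a b : Bo m} (h : ∀ k l, mB a k l = mB b k l) : a = b :=
  Subtype.ext (Subtype.ext (Matrix.ext h))

private theorem VA_comm {m : ℕ} {t b : Bo m} (ht : IsT t) (hb : IsT b) : b * t = t * b := by
  refine VA_ext fun k l => ?_
  rw [VA_mul_right b t ht, VA_mul_left b t ht]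
  by_cases hkl : k = l
  · subst hkl
    exact mul_comm _ _
  · rw [hb k l hkl, zero_mul, mul_zero]

private theorem VA_conj {m : ℕ} {i j : Fin m} (hij : i ≠ j) {u : ℂ → Bo m} (hu : IsU i j u)
    {t : Bo m} (ht : IsT t) (s : ℂ) :
    u s * t = t * u (s * (mB t j j * (mB t i i)⁻¹)) := by
  refine VA_ext fun k l => ?_
  rw [VA_mul_right _ t ht, VA_mul_left _ t ht, hu, hu]
  by_cases hkl : k = l
  · subst hkl
    have h1 : ¬ (k = i ∧ k = j) := fun h => hij (h.1.symm.trans h.2)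
    rw [if_neg h1, if_neg h1, mul_comm]
  · by_cases h2 : k = i ∧ l = j
    · obtain ⟨rfl, rfl⟩ := h2
      rw [if_neg hkl, if_pos ⟨rfl, rfl⟩, if_pos ⟨rfl, rfl⟩, zero_add, zero_add]
      have h3 := mB_diag_ne t k
      field_simp
    · rw [if_neg hkl, if_neg h2, if_neg h2, add_zero, zero_mul, mul_zero]

private theorem VA_chr {m : ℕ} {i j : Fin m} (hij : i ≠ j) (t : Bo m) :
    chr (0 + root i j) t = mB t i i * (mB t j j)⁻¹ := by
  unfold chr
  rw [Finset.prod_eq_mul i j hij]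
  · have h1 : (0 + root i j) i = 1 := by
      simp [root, hij]
    have h2 : (0 + root i j) j = -1 := by
      simp [root, Ne.symm hij]
    rw [h1, h2, zpow_one, zpow_neg_one]
  · intro k _ hk
    have h1 : (0 + root i j) k = 0 := by
      simp [root, hk.1, hk.2]
    rw [h1, zpow_zero]
  · exact fun h => absurd (Finset.mem_univ i) h
  · exact fun h => absurd (Finset.mem_univ j) h

private theorem VA_chr0 {m : ℕ} (t : Bo m) : chr (0 : Fin m → ℤ) t = 1 := by
  unfold chr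
  exact Finset.prod_eq_one fun k _ => by rw [Pi.zero_apply, zpow_zero]

/-- The one parameter group of `SL_2`. -/
private noncomputable def VA_u2 (s : ℂ) : SLm 2 :=
  ⟨!![1, s; 0, 1], by rw [Matrix.det_fin_two_of]; ring⟩

private theorem VA_u2_spec (s : ℂ) : mat (VA_u2 s) 0 0 = 1 ∧ mat (VA_u2 s) 0 1 = s ∧
    mat (VA_u2 s) 1 0 = 0 ∧ mat (VA_u2 s) 1 1 = 1 := ⟨rfl, rfl, rfl, rfl⟩

private theorem VA_blk {m : ℕ} {i j : Fin m} (hij : i ≠ j) {u : ℂ → Bo m} (hu : IsU i j u)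
    (s : ℂ) : Blk i j (VA_u2 s) (u s).1 := by
  intro k l
  obtain ⟨h1, h2, h3, h4⟩ := VA_u2_spec s
  rw [h1, h2, h3, h4]
  have h5 : mat (u s).1 k l = _ := hu s k l
  rw [h5]
  by_cases hki : k = i
  · subst hki
    by_cases hlk : l = k
    · subst hlk
      simp [hij]
    · by_cases hlj : l = j
      · subst hlj
        simp [hij, Ne.symm hij]
      · simp [hlk, hlj, Ne.symm hlk]
  · by_cases hkj : k = j
    · subst hkj
      by_cases hli : l = i
      · subst hli
        simp [hij, Ne.symm hij]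
      · by_cases hlk : l = k
        · subst hlk
          simp [hki]
        · simp [hki, hli, hlk, Ne.symm hlk]
    · simp [hki, hkj]

private theorem VA_det {g : SLm 2} (h : mat g 1 0 = 0) : mat g 0 0 * mat g 1 1 = 1 := by
  have h1 : (mat g).det = 1 := g.2
  rw [Matrix.det_fin_two, h, mul_zero, sub_zero] at h1
  exact h1

private theorem VA_blkT {m : ℕ} {i j : Fin m} {g : SLm 2} (h1 : mat g 1 0 = 0)
    (h2 : mat g 0 1 = 0) {b : Bo m} (hb : Blk i j g b.1) : IsT b := by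
  intro k l hkl
  have h3 : mB b k l = _ := hb k l
  rw [h3, h1, h2]
  by_cases hki : k = i
  · subst hki
    simp [Ne.symm hkl]
  · by_cases hkj : k = j
    · subst hkj
      simp [hki, Ne.symm hkl]
    · simp [hki, hkj, hkl]

/-- Invariant vectors of the third module come from invariant vectors of the second one. -/
private theorem VA_inv (hSLc : S_SLc) (hEmb : S_Emb) {m : ℕ} {i j : Fin m}
    (hij : j.val = i.val + 1) {V : Type} [AddCommGroup V] [Module ℂ V]
    {ρ : Representation ℂ (Bo m) V} {σ : Representation ℂ (SLm 2) V} (hA : AlphaMod i j 1 ρ σ)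
    {u : ℂ → Bo m} (hu : IsU i j u) (w : V)
    (hw : ∀ t : Bo m, IsT t → ρ t w = chr (0 + root i j) t • w) :
    ∃ v : V, (∀ t : Bo m, IsT t → ρ t v = v) ∧
      ∀ ℓ : V →ₗ[ℂ] ℂ, HasDerivAt (fun s => ℓ (ρ (u s) v)) (ℓ w) 0 := by
  have hne : i ≠ j := by
    intro h
    have := congrArg Fin.val h
    omega
  obtain ⟨hS1, hS2⟩ := hSLc V σ hA.rat2 VA_u2 VA_u2_spec
  have hρ : ∀ (g : SLm 2) (b : Bo m), mat g 1 0 = 0 → Blk i j g b.1 → ∀ x : V,
      ρ b x = mat g 0 0 • σ g x := by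
    intro g b h1 h2 x
    rw [hA.agree g b h1 h2, zpow_one]
    rfl
  have hρu : ∀ (s : ℂ) (x : V), ρ (u s) x = σ (VA_u2 s) x := by
    intro s x
    rw [hρ (VA_u2 s) (u s) (VA_u2_spec s).2.2.1 (VA_blk hne hu s), (VA_u2_spec s).1, one_smul]
  have hg0 : ∀ g : SLm 2, mat g 1 0 = 0 → mat g 0 0 ≠ 0 := fun g h h0 => by
    have := VA_det h
    rw [h0, zero_mul] at this
    exact zero_ne_one this
  have hw1 : ∀ g : SLm 2, mat g 1 0 = 0 → mat g 0 1 = 0 → σ g w = mat g 0 0 • w := by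
    intro g h1 h2
    obtain ⟨b, hb⟩ := (hEmb m i j hij).2.1 g h1
    have hbT := VA_blkT h1 h2 hb
    have h3 := hw b hbT
    rw [hρ g b h1 hb, VA_chr hne] at h3
    have hbi : mB b i i = mat g 0 0 := by
      have : mB b i i = _ := hb i i
      rw [this, if_pos rfl, if_pos rfl]
    have hbj : mB b j j = mat g 1 1 := by
      have : mB b j j = _ := hb j j
      rw [this, if_neg (Ne.symm hne), if_pos rfl, if_neg (Ne.symm hne), if_pos rfl]
    have h4 : (mat g 1 1)⁻¹ = mat g 0 0 := (eq_inv_of_mul_eq_one_left (VA_det h1)).symm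
    rw [hbi, hbj, h4, mul_smul] at h3
    have h5 := congrArg (fun y => (mat g 0 0)⁻¹ • y) h3
    simpa only [inv_smul_smul₀ (hg0 g h1)] using h5
  obtain ⟨v, hv1, hv2⟩ := hS2 w hw1
  have hv3 : ∀ ℓ : V →ₗ[ℂ] ℂ, HasDerivAt (fun s => ℓ (ρ (u s) v)) (ℓ w) 0 := by
    intro ℓ
    have h := hv2 ℓ
    simp only [hρu]
    exact h
  refine ⟨v, fun t ht => ?_, hv3⟩
  have key : ρ t v - v = 0 := by
    refine hS1 _ ?_ ?_
    · intro g h1 h2
      obtain ⟨b, hb⟩ := (hEmb m i j hij).2.1 g h1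
      have hbT := VA_blkT h1 h2 hb
      have h3 : ∀ x : V, σ g x = (mat g 0 0)⁻¹ • ρ b x := fun x => by
        rw [hρ g b h1 hb, inv_smul_smul₀ (hg0 g h1)]
      have h4 : σ g (ρ t v) = (mat g 0 0)⁻¹ • ρ t v := by
        have h5 : ρ b (ρ t v) = ρ t (ρ b v) := by
          have h6 : ρ (b * t) v = ρ (t * b) v := by rw [VA_comm ht hbT]
          rw [map_mul, map_mul] at h6
          exact h6
        rw [h3, h5, ← map_smul, ← h3, hv1 g h1 h2, map_smul]
      rw [map_sub, h4, hv1 g h1 h2, smul_sub]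
    · intro ℓ
      have hti := mB_diag_ne t i
      have htj := mB_diag_ne t j
      have h1 : HasDerivAt (fun s : ℂ => (ℓ ∘ₗ ρ t) (ρ (u (s * (mB t j j * (mB t i i)⁻¹))) v))
          (ℓ w) 0 := by
        have h2 := hv3 (ℓ ∘ₗ ρ t)
        have h3 : HasDerivAt (fun s : ℂ => s * (mB t j j * (mB t i i)⁻¹))
            (1 * (mB t j j * (mB t i i)⁻¹)) 0 := (hasDerivAt_id (0 : ℂ)).mul_const _
        have h5 := HasDerivAt.comp_of_eq (0 : ℂ) h2 h3 (zero_mul _).symm
        have h6 : (ℓ ∘ₗ ρ t) w * (1 * (mB t j j * (mB t i i)⁻¹)) = ℓ w := by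
          rw [LinearMap.comp_apply, hw t ht, VA_chr hne, map_smul, smul_eq_mul]
          field_simp
        rw [h6] at h5
        exact h5
      have h7 : (fun s => ℓ (σ (VA_u2 s) (ρ t v - v))) = fun s : ℂ =>
          (ℓ ∘ₗ ρ t) (ρ (u (s * (mB t j j * (mB t i i)⁻¹))) v) - ℓ (ρ (u s) v) := by
        funext s
        rw [map_sub, map_sub, ← hρu, ← hρu]
        have h8 : ρ (u s) (ρ t v) = ρ t (ρ (u (s * (mB t j j * (mB t i i)⁻¹))) v) := by
          have h9 : ρ (u s * t) v = ρ (t * u (s * (mB t j j * (mB t i i)⁻¹))) v := by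
            rw [VA_conj hne hu ht]
          rw [map_mul, map_mul] at h9
          exact h9
        rw [h8]
        rfl
      rw [h7]
      have h10 := h1.sub (hv3 ℓ)
      rw [sub_self] at h10
      exact h10
  exact sub_eq_zero.1 key

theorem tVA : S_HRep → S_Acy → S_Stp → S_LA → S_LF → S_SLc → S_Emb → S_VA := by
  intro hHRep hAcy hStp hLA hLF hSLc hEmb m i j hij V _ _ ρ σ hA u hu θ hθ q
  have hlt : i < j := by
    rw [Fin.lt_def]
    omega
  have hstep : Step i j u ∅ (Set.range u) :=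
    { lt := hlt
      isU := hu
      mem := fun s => ⟨s, rfl⟩
      sub := Set.empty_subset _
      gen := fun n hn => by
        obtain ⟨s, rfl⟩ := hn
        exact ⟨s, 1, Or.inl rfl, (mul_one _).symm⟩
      inv := fun n hn => absurd hn (Set.notMem_empty n)
      nor := fun n hn => absurd hn (Set.notMem_empty n) }
  obtain ⟨⟨θ₀, hθ₀⟩, hr₀⟩ := hHRep m V ρ hA.rat ∅ 0
  obtain ⟨⟨θ₂, hθ₂⟩, -⟩ := hHRep m V ρ hA.rat ∅ (0 + root i j)
  obtain ⟨ι, π, hses, -, hπ⟩ :=
    hStp m V ρ hA.rat i j u ∅ (Set.range u) 0 hstep θ θ₀ θ₂ hθ hθ₀ hθ₂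
  have hac₀ : ∀ q, Van θ₀ (q + 1) := hAcy m V ρ hA.rat ∅ 0
    (fun n hn => absurd hn (Set.notMem_empty n)) θ₀ hθ₀
  have hac₂ : ∀ q, Van θ₂ (q + 1) := hAcy m V ρ hA.rat ∅ (0 + root i j)
    (fun n hn => absurd hn (Set.notMem_empty n)) θ₂ hθ₂
  cases q with
  | succ k =>
    exact hLA m _ _ _ θ θ₀ θ₂ ι π LinearMap.id LinearMap.id LinearMap.id (k + 1) (hr₀ θ₀ hθ₀) hses
      ⟨fun _ => rfl, fun _ => rfl⟩ (fun _ _ => rfl) (hac₂ k) (hac₀ (k + 1))
  | zero =>
    refine hLF m _ _ _ θ θ₀ θ₂ ι π (hr₀ θ₀ hθ₀) hses ?_ (hac₀ 0)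
    intro w hw
    have hw1 : ∀ b : Bo m, w.1 b = ρ b (w.1 1) := by
      intro b
      have h1 := hθ₂ b w b
      rw [hw b, inv_mul_cancel] at h1
      exact h1
    have hw2 : ∀ t : Bo m, IsT t → ρ t (w.1 1) = chr (0 + root i j) t • w.1 1 := by
      intro t ht
      have h1 := w.2.2.2 1 t ht
      rw [one_mul, hw1 t] at h1
      exact h1
    obtain ⟨v, hv1, hv2⟩ := VA_inv hSLc hEmb hij hA hu (w.1 1) hw2
    have hmem : (fun b => ρ b v : Bo m → V) ∈ Hs V ∅ (0 : Fin m → ℤ) := by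
      refine ⟨hA.rat v, fun b n hn => absurd hn (Set.notMem_empty n), fun b t ht => ?_⟩
      have h1 : ρ (b * t) v = ρ b (ρ t v) := by
        rw [map_mul]
        rfl
      beta_reduce
      rw [VA_chr0, one_smul, h1, hv1 t ht]
    refine ⟨⟨fun b => ρ b v, hmem⟩, ?_, ?_⟩
    · intro b
      refine Subtype.ext (funext fun x => ?_)
      rw [hθ₀]
      change ρ b (ρ (b⁻¹ * x) v) = ρ x v
      have h1 : ρ (b * (b⁻¹ * x)) v = ρ b (ρ (b⁻¹ * x) v) := by
        rw [map_mul]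
        rfl
      rw [← h1, mul_inv_cancel_left]
    · refine Subtype.ext (funext fun x => ?_)
      rw [hw1 x]
      rw [← sub_eq_zero]
      refine (Module.forall_dual_apply_eq_zero_iff ℂ _).1 fun ℓ => ?_
      rw [map_sub, sub_eq_zero]
      have h1 := hπ ⟨fun b => ρ b v, hmem⟩ x ℓ
      have h2 := hv2 (ℓ ∘ₗ ρ x)
      refine h1.unique ?_
      have h3 : (fun s => ℓ (ρ (x * u s) v)) = fun s => (ℓ ∘ₗ ρ x) (ρ (u s) v) := by
        funext s
        rw [map_mul]
        rfl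
      change HasDerivAt (fun s => ℓ (ρ (x * u s) v)) (ℓ (ρ x (w.1 1))) 0
      rw [h3]
      exact h2

end PV
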