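import Pool.Agent.Lib.MP_3b3418_ag.PV.SpecJ

/-!
# Module Cd: the bound for the cohomological dimension
-/

set_option autoImplicit false

namespace PV

open MP3s

private theorem Cd_step (hH : S_HRep) (hA : S_Acy) (hS : S_Stp) (hC : S_Chn) (hL : S_LA)
    (m : ℕ) (V : Type) [AddCommGroup V] [Module ℂ V] (ρ : Representation ℂ (Bo m) V)
    (hρ : Rat ρ) : ∀ (k r : ℕ), r + k = m * (m - 1) / 2 → ∀ (χ : Fin m → ℤ)
      (θ : Representation ℂ (Bo m) (Hs V (Nr m r) χ)), IsH ρ (Nr m r) χ θ →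
      ∀ q, k < q → Van θ q := by
  intro k
  induction k with
  | zero =>
    intro r hr χ θ hθ q hq
    obtain ⟨q', rfl⟩ := Nat.exists_eq_succ_of_ne_zero (Nat.pos_iff_ne_zero.1 hq)
    refine hA m V ρ hρ (Nr m r) χ ?_ θ hθ q'
    intro n hn
    have hr' : r = m * (m - 1) / 2 := by omega
    rw [hr'] at hn
    exact (hC m).2.1 n hn
  | succ k ih =>
    intro r hr χ θ' hθ' q hq
    obtain ⟨q', rfl⟩ := Nat.exists_eq_succ_of_ne_zero (show q ≠ 0 by omega)
    obtain ⟨i, j, u, hst⟩ := (hC m).1 r (by omega)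
    obtain ⟨⟨θ, hθ⟩, hrat⟩ := hH m V ρ hρ (Nr m (r + 1)) χ
    obtain ⟨⟨θ'', hθ''⟩, _⟩ := hH m V ρ hρ (Nr m (r + 1)) (χ + root i j)
    obtain ⟨ι, π, hses, _, _⟩ := hS m V ρ hρ i j u (Nr m (r + 1)) (Nr m r) χ hst θ' θ θ''
      hθ' hθ hθ''
    have h1 : Van θ'' q' := ih (r + 1) (by omega) (χ + root i j) θ'' hθ'' q' (by omega)
    have h2 : Van θ (q' + 1) := ih (r + 1) (by omega) χ θ hθ (q' + 1) (by omega)
    exact hL m _ _ _ θ' θ θ'' ι π LinearMap.id LinearMap.id LinearMap.id q' (hrat θ hθ) hses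
      ⟨fun _ => rfl, fun _ => rfl⟩ (fun _ _ => rfl) h1 h2

/-- The diagonal part. -/
private theorem Cd_diag {m : ℕ} (b : Bo m) : ∃ n t : Bo m, IsN n ∧ IsT t ∧ b = n * t := by
  have hdet : (Matrix.diagonal fun i => mB b i i).det = 1 := by
    rw [Matrix.det_diagonal]
    have h1 : (mB b).det = 1 := b.1.2
    rw [← h1]
    refine (Matrix.det_of_upperTriangular ?_).symm
    intro i j hij
    exact b.2 i j hij
  let t₀ : SLm m := ⟨Matrix.diagonal fun i => mB b i i, hdet⟩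
  have ht₀ : t₀ ∈ Bor m := by
    intro i j hij
    exact Matrix.diagonal_apply_ne _ (ne_of_gt hij)
  let t : Bo m := ⟨t₀, ht₀⟩
  have htm : mB t = Matrix.diagonal fun i => mB b i i := rfl
  have htd : ∀ i, mB t i i = mB b i i := by
    intro i
    rw [htm, Matrix.diagonal_apply_eq]
  refine ⟨b * t⁻¹, t, ?_, ?_, ?_⟩
  · intro i
    have h1 : mB (t * t⁻¹) i i = 1 := by
      rw [mul_inv_cancel]
      exact Matrix.one_apply_eq i
    rw [mB_diag_mul] at h1 ⊢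
    rw [← htd i]
    exact h1
  · intro i j hij
    rw [htm]
    exact Matrix.diagonal_apply_ne _ hij
  · rw [inv_mul_cancel_right]

private theorem Cd_const (hC : S_Chn) {m : ℕ} {V : Type} [AddCommGroup V] [Module ℂ V]
    (f : Hs V (Nr m 0) 0) (b : Bo m) : f.1 b = f.1 1 := by
  obtain ⟨n, t, hn, ht, rfl⟩ := Cd_diag b
  have h1 : f.1 (n * t) = chr 0 t • f.1 n := f.2.2.2 n t ht
  have h2 : chr (0 : Fin m → ℤ) t = 1 := by
    unfold chr
    exact Finset.prod_eq_one fun i _ => by rw [Pi.zero_apply, zpow_zero]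
  have h3 : f.1 (1 * n) = f.1 1 := f.2.2.1 1 n (((hC m).2.2 n).2 hn)
  rw [h1, h2, one_smul, ← h3, one_mul]

private theorem Cd_mem {m : ℕ} {V : Type} [AddCommGroup V] [Module ℂ V] (v : V) :
    (fun _ : Bo m => v) ∈ Hs V (Nr m 0) 0 := by
  refine ⟨Reg.const v, fun _ _ _ => rfl, fun b t _ => ?_⟩
  have h2 : chr (0 : Fin m → ℤ) t = 1 := by
    unfold chr
    exact Finset.prod_eq_one fun i _ => by rw [Pi.zero_apply, zpow_zero]
  rw [h2, one_smul]

theorem tCd : S_HRep → S_Acy → S_Stp → S_Chn → S_LA → S_VZ → S_Cd := by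
  intro hH hA hS hC hL hVZ m V _ _ ρ hρ q hq
  obtain ⟨⟨θ, hθ⟩, _⟩ := hH m V ρ hρ (Nr m 0) 0
  have h1 : Van θ q := Cd_step hH hA hS hC hL m V ρ hρ (m * (m - 1) / 2) 0 (by omega) 0 θ hθ q hq
  let e : Hs V (Nr m 0) 0 ≃ₗ[ℂ] V :=
    { toFun := fun f => f.1 1
      map_add' := fun _ _ => rfl
      map_smul' := fun _ _ => rfl
      invFun := fun v => ⟨fun _ => v, Cd_mem v⟩
      left_inv := fun f => by
        refine Subtype.ext (funext fun b => ?_)
        exact (Cd_const hC f b).symm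
      right_inv := fun _ => rfl }
  refine (hVZ m (Hs V (Nr m 0) 0) V θ ρ).2.1 e LinearMap.id LinearMap.id q ?_ (fun _ => rfl) h1
  intro b f
  change (θ b f).1 1 = ρ b (f.1 1)
  rw [hθ b f 1, Cd_const hC f (b⁻¹ * 1)]

end PV
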